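import Pool.Agent.H358Z.NeckB

/-!
Descent for additive cubes of several kinds under a uniform substitution.

For a word `x` over natural numbers and a threshold `h`, the point of kind `h` at position `m` is
`U x h m = x 0 + ... + x (m-1) + max 0 (x m - h)`; it is admissible when `x m ≠ h`.  The kind `9`
gives the ordinary additive cubes for words over letters below 9.
-/

namespace Pool.Agent.H358Z.Cube

open Finset Pool.Agent.H358Z.Neck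

/-- sums of initial segments -/
def S (x : ℕ → ℕ) (m : ℕ) : ℤ := ∑ i ∈ range m, (x i : ℤ)

/-- point of kind `h` -/
def U (x : ℕ → ℕ) (h m : ℕ) : ℤ := S x m + ((x m - h : ℕ) : ℤ)

/-- cube of kind `h` at `n` with period `q` -/
def Cb (x : ℕ → ℕ) (h n q : ℕ) : Prop :=
  x n ≠ h ∧ x (n + q) ≠ h ∧ x (n + 2 * q) ≠ h ∧ x (n + 3 * q) ≠ h ∧
  U x h n - 2 * U x h (n + q) + U x h (n + 2 * q) = 0 ∧
  U x h (n + q) - 2 * U x h (n + 2 * q) + U x h (n + 3 * q) = 0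

lemma S_succ (x : ℕ → ℕ) (m : ℕ) : S x (m + 1) = S x m + x m := by
  simp [S, sum_range_succ]

/-- the data of a substitution -/
structure Sub where
  L : ℕ
  al : ℕ
  be : ℕ
  ta : ℕ
  ti : ℕ
  M : ℕ
  MC : ℕ
  G : ℕ → ℕ → ℕ
  P : ℕ → ℕ → ℕ
  short : Bool

namespace Sub

variable (D : Sub)

noncomputable def chk0 : Bool :=
  Nat.ble 3 D.L && Nat.ble 1 D.al && Nat.beq ((D.ta + D.be) % D.al) 0 && Nat.ble D.M 8 &&
  allB (D.M + 1) fun a => Nat.beq (D.P a 0) 0 && Nat.beq (D.P a D.L) (D.be + D.al * a) &&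
    allB D.L fun r => Nat.beq (D.P a (r + 1)) (D.P a r + D.G a r) && Nat.ble (D.G a r) D.MC

def pv (k a r : ℕ) : ℕ := D.P a r + (D.G a r - k)

def cls (k a r : ℕ) : ℕ := (D.L * D.pv k a r + D.ta * r) % (D.L * D.al)

def place (c : ℕ) : ℕ := (D.ti * c) % D.L

def here (k a r c : ℕ) : Bool := !(Nat.beq (D.G a r) k) && Nat.beq (D.cls k a r) c

noncomputable def chk1 (k mask : ℕ) : Bool :=
  allB (D.M + 1) fun a => allB D.L fun r =>
    Nat.beq (D.G a r) k || (mask.testBit (D.cls k a r) && Nat.beq (D.place (D.cls k a r)) r)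

def posE (e0 e1 e2 e3 r0 r1 r2 r3 : ℕ) : Bool :=
  Nat.beq (r0 + r2 + 2 * (e1 * D.L)) (2 * r1 + e0 * D.L + e2 * D.L) &&
  Nat.beq (r1 + r3 + 2 * (e2 * D.L)) (2 * r2 + e1 * D.L + e3 * D.L)

def dif (e f a b : ℕ) : Bool := Nat.beq e f && !(Nat.beq a b)

def okE (k e0 e1 e2 e3 r0 r1 r2 r3 a0 a1 a2 a3 : ℕ) : Bool :=
  Nat.beq (D.pv k a0 r0 + D.pv k a2 r2 + 2 * (e1 * (D.be + D.al * a1)))
    (2 * D.pv k a1 r1 + e0 * (D.be + D.al * a0) + e2 * (D.be + D.al * a2)) &&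
  Nat.beq (D.pv k a1 r1 + D.pv k a3 r3 + 2 * (e2 * (D.be + D.al * a2)))
    (2 * D.pv k a2 r2 + e1 * (D.be + D.al * a1) + e3 * (D.be + D.al * a3)) &&
  (D.short || Nat.beq (r0 + e1 * D.L) (r1 + e0 * D.L) || dif e0 e1 a0 a1 || dif e0 e2 a0 a2 ||
    dif e0 e3 a0 a3 || dif e1 e2 a1 a2 || dif e1 e3 a1 a3 || dif e2 e3 a2 a3)

def okH (k h r0 r1 r2 r3 a0 a1 a2 a3 : ℕ) : Bool :=
  Nat.blt h D.M && !(Nat.beq a0 h) && !(Nat.beq a1 h) && !(Nat.beq a2 h) && !(Nat.beq a3 h) &&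
  Nat.beq (D.pv k a0 r0 + D.pv k a2 r2 + 2 * (D.al * (a1 - h)))
    (2 * D.pv k a1 r1 + D.al * (a0 - h) + D.al * (a2 - h)) &&
  Nat.beq (D.pv k a1 r1 + D.pv k a3 r3 + 2 * (D.al * (a2 - h)))
    (2 * D.pv k a2 r2 + D.al * (a1 - h) + D.al * (a3 - h)) &&
  (D.short || Nat.beq r0 r1 || !(Nat.beq a0 a1) || !(Nat.beq a1 a2) || !(Nat.beq a2 a3))

/-- the conclusion of the descent -/
def Desc (x : ℕ → ℕ) (p : ℕ) : Prop :=
  (D.short = true ∧ p < D.L) ∨ ∃ h m q : ℕ, (h = 9 ∨ (1 ≤ h ∧ h < D.M)) ∧ 0 < q ∧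
    3 * (D.L * q) < 3 * p + 2 * D.L ∧ p < D.L * q + D.L ∧ Cb x h m q

end Sub

lemma img {D : Sub} (h0 : D.chk0 = true) (x y : ℕ → ℕ) (hx : ∀ i, x i ≤ D.M)
    (hy : ∀ m r, r < D.L → y (D.L * m + r) = D.G (x m) r) (m r : ℕ) (hr : r ≤ D.L) :
    S y (D.L * m + r) = m * (D.be : ℤ) + D.al * S x m + D.P (x m) r := by
  simp only [Sub.chk0, Bool.and_eq_true] at h0
  have ha := fun a (h : a ≤ D.M) => allB_spec h0.2 a (by omega)
  simp only [Bool.and_eq_true, Nat.beq_eq] at ha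
  have inner : ∀ m, S y (D.L * m) = m * (D.be : ℤ) + D.al * S x m →
      ∀ r, r ≤ D.L → S y (D.L * m + r) = m * (D.be : ℤ) + D.al * S x m + D.P (x m) r := by
    intro m hm r
    induction r with
    | zero => intro _; simp [hm, (ha _ (hx m)).1.1]
    | succ r ih =>
      intro hr
      have e := allB_spec (ha _ (hx m)).2 r (by omega)
      simp only [Bool.and_eq_true, Nat.beq_eq] at e
      rw [← Nat.add_assoc, S_succ, ih (by omega), hy m r (by omega), e.1]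
      push_cast
      ring
  have base : ∀ m, S y (D.L * m) = m * (D.be : ℤ) + D.al * S x m := by
    intro m
    induction m with
    | zero => simp [S]
    | succ m ih =>
      rw [Nat.mul_succ, inner m ih D.L le_rfl, S_succ, (ha _ (hx m)).1.2]
      push_cast
      ring
  exact inner m (base m) r hr

lemma posl (L n p m0 m1 m2 m3 r0 r1 r2 r3 e0 e1 e2 e3 : ℕ) (hL : 3 ≤ L)
    (t0 : n = L * m0 + r0) (t1 : n + p = L * m1 + r1) (t2 : n + 2 * p = L * m2 + r2)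
    (t3 : n + 3 * p = L * m3 + r3) (l3 : r3 < L) (b0 : e0 ≤ 1)
    (p1 : r0 + r2 + 2 * (e1 * L) = 2 * r1 + e0 * L + e2 * L)
    (p2 : r1 + r3 + 2 * (e2 * L) = 2 * r2 + e1 * L + e3 * L) :
    ∃ q, m1 + e1 = m0 + e0 + q ∧ m2 + e2 = m0 + e0 + 2 * q ∧ m3 + e3 = m0 + e0 + 3 * q ∧
      3 * (L * q) + r3 + e0 * L = 3 * p + r0 + e3 * L ∧
      L * q + r1 + e0 * L = p + r0 + e1 * L := by
  have a1 : m0 + e0 + (m2 + e2) = 2 * (m1 + e1) := by
    apply Nat.eq_of_mul_eq_mul_left (by omega : 0 < L)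
    zify at t0 t1 t2 p1 ⊢
    linear_combination -t0 + 2 * t1 - t2 - p1
  have a2 : m1 + e1 + (m3 + e3) = 2 * (m2 + e2) := by
    apply Nat.eq_of_mul_eq_mul_left (by omega : 0 < L)
    zify at t1 t2 t3 p2 ⊢
    linear_combination -t1 + 2 * t2 - t3 - p2
  have f0 : e0 * L ≤ 1 * L := Nat.mul_le_mul_right L b0
  have a3 : m0 + e0 ≤ m1 + e1 := by
    by_contra hc
    have h1 : m3 + e3 + 3 ≤ m0 + e0 := by omega
    have h2 := Nat.mul_le_mul_left L h1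
    rw [Nat.mul_add, Nat.mul_add, Nat.mul_add, Nat.mul_comm L e0] at h2
    omega
  obtain ⟨q, hq⟩ := Nat.exists_eq_add_of_le a3
  have q3 : m3 + e3 = m0 + e0 + 3 * q := by omega
  refine ⟨q, hq, by omega, q3, ?_, ?_⟩
  · zify at t0 t3 q3 ⊢
    linear_combination t0 - t3 - (L : ℤ) * q3
  · zify at t0 t1 hq ⊢
    linear_combination t0 - t1 - (L : ℤ) * hq

lemma descE {D : Sub} (hL : 3 ≤ D.L) (hal : 1 ≤ D.al) (hM : D.M ≤ 8) (x : ℕ → ℕ)
    (hx : ∀ i, x i ≤ D.M) (k n p : ℕ) (hp : 0 < p) (Y0 Y1 Y2 Y3 : ℤ)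
    (m0 m1 m2 m3 r0 r1 r2 r3 e0 e1 e2 e3 : ℕ)
    (t0 : n = D.L * m0 + r0) (t1 : n + p = D.L * m1 + r1) (t2 : n + 2 * p = D.L * m2 + r2)
    (t3 : n + 3 * p = D.L * m3 + r3)
    (l0 : r0 < D.L) (_l1 : r1 < D.L) (l2 : r2 < D.L) (l3 : r3 < D.L)
    (b0 : e0 ≤ 1) (b1 : e1 ≤ 1) (b2 : e2 ≤ 1) (b3 : e3 ≤ 1)
    (y0 : Y0 = m0 * (D.be : ℤ) + D.al * S x m0 + D.pv k (x m0) r0)
    (y1 : Y1 = m1 * (D.be : ℤ) + D.al * S x m1 + D.pv k (x m1) r1)
    (y2 : Y2 = m2 * (D.be : ℤ) + D.al * S x m2 + D.pv k (x m2) r2)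
    (y3 : Y3 = m3 * (D.be : ℤ) + D.al * S x m3 + D.pv k (x m3) r3)
    (c1 : Y0 - 2 * Y1 + Y2 = 0) (c2 : Y1 - 2 * Y2 + Y3 = 0)
    (hpos : D.posE e0 e1 e2 e3 r0 r1 r2 r3 = true)
    (hok : D.okE k e0 e1 e2 e3 r0 r1 r2 r3 (x m0) (x m1) (x m2) (x m3) = true) :
    D.Desc x p := by
  simp only [Sub.posE, Bool.and_eq_true, Nat.beq_eq] at hpos
  simp only [Sub.okE, Sub.dif, Bool.and_eq_true, Bool.or_eq_true, Nat.beq_eq, Bool.not_eq_true',
    ← Bool.not_eq_true] at hok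
  obtain ⟨p1, p2⟩ := hpos
  obtain ⟨⟨v1, v2⟩, hs⟩ := hok
  have sh : ∀ m e : ℕ, e ≤ 1 → S x (m + e) = S x m + e * (x m : ℤ) := by
    intro m e he
    rcases (by omega : e = 0 ∨ e = 1) with rfl | rfl
    · simp
    · simp [S_succ]
  obtain ⟨q, hq, q2, q3, k3, k1⟩ := posl D.L n p m0 m1 m2 m3 r0 r1 r2 r3 e0 e1 e2 e3 hL t0 t1 t2 t3
    l3 b0 p1 p2
  have a1 : m0 + e0 + (m2 + e2) = 2 * (m1 + e1) := by omega
  have a2 : m1 + e1 + (m3 + e3) = 2 * (m2 + e2) := by omega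
  have f0 : e0 * D.L ≤ 1 * D.L := Nat.mul_le_mul_right _ b0
  have f3 : e3 * D.L ≤ 1 * D.L := Nat.mul_le_mul_right _ b3
  rcases Nat.eq_zero_or_pos q with rfl | hq0
  · left
    have g : ∀ m m' e e' : ℕ, m + e = m' + e' → ¬ (e = e' ∧ ¬ x m = x m') := by
      rintro m m' e e' h ⟨h1, h2⟩
      exact h2 (by rw [show m = m' by omega])
    have g1 := g m0 m1 e0 e1 (by omega)
    have g2 := g m0 m2 e0 e2 (by omega)
    have g3 := g m0 m3 e0 e3 (by omega)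
    have g4 := g m1 m2 e1 e2 (by omega)
    have g5 := g m1 m3 e1 e3 (by omega)
    have g6 := g m2 m3 e2 e3 (by omega)
    have g7 : ¬ (r0 + e1 * D.L = r1 + e0 * D.L) := by omega
    refine ⟨?_, by omega⟩
    simpa only [g1, g2, g3, g4, g5, g6, g7, or_false] using hs
  · right
    refine ⟨9, m0 + e0, q, Or.inl rfl, hq0, by omega, by omega, ?_⟩
    have n9 : ∀ i, x i ≠ 9 := fun i => by have := hx i; omega
    have u9 : ∀ i, U x 9 i = S x i := fun i => by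
      have := hx i
      simp [U, show x i - 9 = 0 by omega]
    have hal0 : (D.al : ℤ) ≠ 0 := by exact_mod_cast (by omega : D.al ≠ 0)
    refine ⟨n9 _, n9 _, n9 _, n9 _, ?_, ?_⟩
    · rw [u9, u9, u9, ← hq, ← q2, sh _ _ b0, sh _ _ b1, sh _ _ b2]
      apply mul_left_cancel₀ hal0
      zify at v1 a1
      linear_combination c1 - y0 + 2 * y1 - y2 - v1 - (D.be : ℤ) * a1
    · rw [u9, u9, u9, ← hq, ← q2, ← q3, sh _ _ b1, sh _ _ b2, sh _ _ b3]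
      apply mul_left_cancel₀ hal0
      zify at v2 a2
      linear_combination c2 - y1 + 2 * y2 - y3 - v2 - (D.be : ℤ) * a2

lemma descH {D : Sub} (hL : 3 ≤ D.L) (hal : 1 ≤ D.al) (x : ℕ → ℕ)
    (k h n p : ℕ) (h1 : 1 ≤ h) (hp : 0 < p) (Y0 Y1 Y2 Y3 : ℤ)
    (m0 m1 m2 m3 r0 r1 r2 r3 : ℕ)
    (t0 : n = D.L * m0 + r0) (t1 : n + p = D.L * m1 + r1) (t2 : n + 2 * p = D.L * m2 + r2)
    (t3 : n + 3 * p = D.L * m3 + r3)
    (l0 : r0 < D.L) (l3 : r3 < D.L)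
    (y0 : Y0 = m0 * (D.be : ℤ) + D.al * S x m0 + D.pv k (x m0) r0)
    (y1 : Y1 = m1 * (D.be : ℤ) + D.al * S x m1 + D.pv k (x m1) r1)
    (y2 : Y2 = m2 * (D.be : ℤ) + D.al * S x m2 + D.pv k (x m2) r2)
    (y3 : Y3 = m3 * (D.be : ℤ) + D.al * S x m3 + D.pv k (x m3) r3)
    (c1 : Y0 - 2 * Y1 + Y2 = 0) (c2 : Y1 - 2 * Y2 + Y3 = 0)
    (hpos : D.posE 0 0 0 0 r0 r1 r2 r3 = true)
    (hok : D.okH k h r0 r1 r2 r3 (x m0) (x m1) (x m2) (x m3) = true) :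
    D.Desc x p := by
  simp only [Sub.posE, Bool.and_eq_true, Nat.beq_eq, zero_mul, mul_zero, add_zero] at hpos
  simp only [Sub.okH, Bool.and_eq_true, Bool.or_eq_true, Nat.beq_eq, Bool.not_eq_true',
    ← Bool.not_eq_true, Nat.blt_eq] at hok
  obtain ⟨p1, p2⟩ := hpos
  obtain ⟨⟨⟨⟨⟨⟨⟨hM, n0⟩, n1⟩, n2⟩, n3⟩, v1⟩, v2⟩, hs⟩ := hok
  obtain ⟨q, hq, q2, q3, k3, k1⟩ := posl D.L n p m0 m1 m2 m3 r0 r1 r2 r3 0 0 0 0 hL t0 t1 t2 t3
    l3 (by omega) (by omega) (by omega)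
  simp only [add_zero, zero_mul] at hq q2 q3 k3 k1
  have a1 : m0 + m2 = 2 * m1 := by omega
  have a2 : m1 + m3 = 2 * m2 := by omega
  rcases Nat.eq_zero_or_pos q with rfl | hq0
  · left
    have g1 : x m0 = x m1 := by rw [show m0 = m1 by omega]
    have g2 : x m1 = x m2 := by rw [show m1 = m2 by omega]
    have g3 : x m2 = x m3 := by rw [show m2 = m3 by omega]
    have g7 : ¬ (r0 = r1) := by omega
    refine ⟨?_, by omega⟩
    rcases hs with (((hs | hs) | hs) | hs) | hs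
    exacts [hs, absurd hs g7, absurd g1 hs, absurd g2 hs, absurd g3 hs]
  · right
    refine ⟨h, m0, q, Or.inr ⟨h1, hM⟩, hq0, by omega, by omega, ?_⟩
    have hal0 : (D.al : ℤ) ≠ 0 := by exact_mod_cast (by omega : D.al ≠ 0)
    unfold Cb U
    rw [← hq, ← q2, ← q3]
    refine ⟨n0, n1, n2, n3, ?_, ?_⟩
    · apply mul_left_cancel₀ hal0
      generalize x m0 - h = z0 at *
      generalize x m1 - h = z1 at *
      generalize x m2 - h = z2 at *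
      zify at v1 a1
      linear_combination c1 - y0 + 2 * y1 - y2 - v1 - (D.be : ℤ) * a1
    · apply mul_left_cancel₀ hal0
      generalize x m1 - h = z1 at *
      generalize x m2 - h = z2 at *
      generalize x m3 - h = z3 at *
      zify at v2 a2
      linear_combination c2 - y1 + 2 * y2 - y3 - v2 - (D.be : ℤ) * a2

end Pool.Agent.H358Z.Cube
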