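import Pool.Agent.H358Z.CubeA

/-!
The finite check on four-term progressions in the cyclic group of order `L * al`, and the descent
theorem it implies.
-/

namespace Pool.Agent.H358Z.Cube

open Finset Pool.Agent.H358Z.Neck

/-- evaluate the argument first -/
noncomputable def force (n : ℕ) (f : ℕ → Bool) : Bool :=
  Nat.rec (motive := fun _ => Bool) (f 0) (fun k _ => f (Nat.succ k)) n

lemma force_eq (n : ℕ) (f : ℕ → Bool) : force n f = f n := by
  cases n <;> rfl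

/-- one step of the binary search for the top bit -/
noncomputable def stp (W s b : ℕ) (f : ℕ → Bool) : Bool :=
  force (cond (Nat.beq (Nat.shiftRight W (Nat.add b s)) 0) b (Nat.add b s)) f

/-- binary search for the top bit -/
noncomputable def topBit (W : ℕ) (f : ℕ → Bool) : Bool :=
  stp W 4096 0 fun b => stp W 2048 b fun b => stp W 1024 b fun b => stp W 512 b fun b =>
  stp W 256 b fun b => stp W 128 b fun b => stp W 64 b fun b => stp W 32 b fun b =>
  stp W 16 b fun b => stp W 8 b fun b => stp W 4 b fun b => stp W 2 b fun b => stp W 1 b f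

lemma topBit_ex (W : ℕ) (f : ℕ → Bool) : ∃ b, topBit W f = f b := by
  simp only [topBit, stp, force_eq]
  exact ⟨_, rfl⟩

/-- test `f` at all set bits -/
noncomputable def chkBits (f : ℕ → Bool) (fuel : ℕ) : ℕ → Bool :=
  Nat.rec (motive := fun _ => ℕ → Bool) (fun W => Nat.beq W 0)
    (fun _ ih W => Nat.beq W 0 || topBit W fun b => f b && force (W ^^^ 2 ^ b) ih) fuel

lemma chkBits_spec (f : ℕ → Bool) (fuel : ℕ) :
    ∀ W, chkBits f fuel W = true → ∀ c, W.testBit c = true → f c = true := by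
  induction fuel with
  | zero =>
    intro W h c hc
    have h' : Nat.beq W 0 = true := h
    rw [Nat.eq_of_beq_eq_true h'] at hc
    simp at hc
  | succ n ih =>
    intro W h c hc
    have h' : (Nat.beq W 0 || topBit W fun b => f b &&
      force (W ^^^ 2 ^ b) (chkBits f n)) = true := h
    obtain ⟨b, hb⟩ := topBit_ex W fun b => f b && force (W ^^^ 2 ^ b) (chkBits f n)
    rw [hb] at h'
    simp only [force_eq, Bool.or_eq_true, Bool.and_eq_true, Nat.beq_eq] at h'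
    rcases h' with h' | ⟨h1, h2⟩
    · rw [h'] at hc
      simp at hc
    · by_cases e : b = c
      · rwa [← e]
      · refine ih _ h2 c ?_
        rw [Nat.testBit_xor, hc, Nat.testBit_two_pow_of_ne e]
        rfl

/-- four copies of a mask -/
def quad (mask N : ℕ) : ℕ := mask ||| mask <<< N ||| mask <<< (2 * N) ||| mask <<< (3 * N)

lemma quad_bit (mask N e : ℕ) (he : e < 4 * N) (h : mask.testBit (e % N) = true) :
    (quad mask N).testBit e = true := by
  have k : ∀ j, j * N ≤ e → e < j * N + N → e % N = e - j * N := by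
    intro j h1 h2
    obtain ⟨r, rfl⟩ := Nat.exists_eq_add_of_le h1
    rw [Nat.add_sub_cancel_left, Nat.add_comm, Nat.add_mul_mod_self_right,
      Nat.mod_eq_of_lt (by omega)]
  simp only [quad, Nat.testBit_or, Nat.testBit_shiftLeft, Bool.or_eq_true, Bool.and_eq_true,
    decide_eq_true_eq]
  by_cases h1 : e < N
  · rw [Nat.mod_eq_of_lt h1] at h
    exact Or.inl (Or.inl (Or.inl h))
  by_cases h2 : e < 2 * N
  · rw [k 1 (by omega) (by omega), one_mul] at h
    exact Or.inl (Or.inl (Or.inr ⟨by omega, h⟩))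
  by_cases h3 : e < 3 * N
  · rw [k 2 (by omega) (by omega)] at h
    exact Or.inl (Or.inr ⟨by omega, h⟩)
  · rw [k 3 (by omega) (by omega)] at h
    exact Or.inr ⟨by omega, h⟩

namespace Sub

variable (D : Sub)

noncomputable def findE (r0 r1 r2 r3 : ℕ) : ℕ :=
  cond (D.posE 0 0 0 0 r0 r1 r2 r3) 0
    (Nat.rec (motive := fun _ => ℕ) 0
      (fun e ih => cond (D.posE (e % 2) (e / 2 % 2) (e / 4 % 2) (e / 8 % 2) r0 r1 r2 r3) e ih) 15)

noncomputable def tuples (k e e0 e1 e2 e3 c0 c1 c2 c3 r0 r1 r2 r3 : ℕ) : Bool :=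
  D.posE e0 e1 e2 e3 r0 r1 r2 r3 &&
  allB (D.M + 1) fun a0 => !(D.here k a0 r0 c0) ||
  allB (D.M + 1) fun a1 => !(D.here k a1 r1 c1) ||
  allB (D.M + 1) fun a2 => !(D.here k a2 r2 c2) ||
  allB (D.M + 1) fun a3 => !(D.here k a3 r3 c3) ||
    (D.okE k e0 e1 e2 e3 r0 r1 r2 r3 a0 a1 a2 a3 ||
      (Nat.beq e 0 && (D.okE k 1 1 1 1 r0 r1 r2 r3 a0 a1 a2 a3 ||
        D.okH k 1 r0 r1 r2 r3 a0 a1 a2 a3 || D.okH k 2 r0 r1 r2 r3 a0 a1 a2 a3)))

noncomputable def chkAP (k d c0 : ℕ) : Bool :=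
  force ((c0 + d) % (D.L * D.al)) fun c1 => force ((c0 + 2 * d) % (D.L * D.al)) fun c2 =>
  force ((c0 + 3 * d) % (D.L * D.al)) fun c3 =>
  force (D.place c0) fun r0 => force (D.place c1) fun r1 => force (D.place c2) fun r2 =>
  force (D.place c3) fun r3 => force (D.findE r0 r1 r2 r3) fun e =>
  force (e % 2) fun e0 => force (e / 2 % 2) fun e1 => force (e / 4 % 2) fun e2 =>
  force (e / 8 % 2) fun e3 => D.tuples k e e0 e1 e2 e3 c0 c1 c2 c3 r0 r1 r2 r3

noncomputable def chk2 (k mask nb : ℕ) : Bool :=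
  force (quad mask (D.L * D.al)) fun MM => allB nb fun i => allB 100 fun j =>
    force (100 * i + j) fun d =>
      force (mask &&& (MM >>> d) &&& (MM >>> (2 * d)) &&& (MM >>> (3 * d)))
        (chkBits (D.chkAP k d) 1000)

end Sub

lemma eq_mod (a b N : ℕ) (ha : a < N) (h : (N : ℤ) ∣ (b : ℤ) - a) : a = b % N := by
  have : a ≡ b [MOD N] := Nat.modEq_iff_dvd.2 h
  rw [← this, Nat.mod_eq_of_lt ha]

theorem descent {D : Sub} (h0 : D.chk0 = true) {k mask nb : ℕ} (h1 : D.chk1 k mask = true)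
    (hnb : D.L * D.al ≤ 100 * nb) (h2 : D.chk2 k mask nb = true) (x y : ℕ → ℕ)
    (hx : ∀ i, x i ≤ D.M) (hy : ∀ m r, r < D.L → y (D.L * m + r) = D.G (x m) r)
    (n p : ℕ) (hp : 0 < p) (hc : Cb y k n p) : D.Desc x p := by
  have him := img h0 x y hx hy
  simp only [Sub.chk0, Bool.and_eq_true, Nat.ble_eq, Nat.beq_eq] at h0
  obtain ⟨⟨⟨⟨hL, hal⟩, hdv⟩, hM⟩, -⟩ := h0
  have hL0 : 0 < D.L := by omega
  have hN : 0 < D.L * D.al := Nat.mul_pos hL0 hal
  have yt : ∀ t, y t = D.G (x (t / D.L)) (t % D.L) := fun t => by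
    rw [← hy _ _ (Nat.mod_lt _ hL0), Nat.div_add_mod]
  have Ut : ∀ t, U y k t = (t / D.L : ℕ) * (D.be : ℤ) + D.al * S x (t / D.L)
      + D.pv k (x (t / D.L)) (t % D.L) := fun t => by
    have := him (t / D.L) (t % D.L) (Nat.mod_lt _ hL0).le
    rw [Nat.div_add_mod] at this
    unfold U Sub.pv
    rw [this, yt t]
    push_cast
    ring
  obtain ⟨C, hC⟩ : ∃ C : ℕ → ℕ, ∀ t, C t = D.cls k (x (t / D.L)) (t % D.L) := ⟨_, fun _ => rfl⟩
  have Clt : ∀ t, C t < D.L * D.al := fun t => by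
    rw [hC]
    exact Nat.mod_lt _ hN
  obtain ⟨s, hs⟩ := Nat.dvd_of_mod_eq_zero hdv
  have Cdv : ∀ t, ∃ z : ℤ, D.L * U y k t + D.ta * t - C t = ((D.L * D.al : ℕ) : ℤ) * z := by
    intro t
    have e1 := Nat.div_add_mod (D.L * D.pv k (x (t / D.L)) (t % D.L) + D.ta * (t % D.L))
      (D.L * D.al)
    have e2 := Nat.div_add_mod t D.L
    have e3 : C t = (D.L * D.pv k (x (t / D.L)) (t % D.L) + D.ta * (t % D.L)) % (D.L * D.al) :=
      hC t
    rw [← e3] at e1
    rw [Ut t]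
    generalize (D.L * D.pv k (x (t / D.L)) (t % D.L) + D.ta * (t % D.L)) / (D.L * D.al) = w at e1
    generalize D.pv k (x (t / D.L)) (t % D.L) = v at *
    generalize t / D.L = m at *
    generalize t % D.L = r at *
    refine ⟨w + m * s + S x m, ?_⟩
    zify at e1 e2 hs
    push_cast
    linear_combination -e1 - (D.ta : ℤ) * e2 + (D.L : ℤ) * m * hs
  have mem : ∀ t, y t ≠ k → mask.testBit (C t) = true ∧ D.place (C t) = t % D.L ∧
      D.here k (x (t / D.L)) (t % D.L) (C t) = true := by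
    intro t ht
    have e := allB_spec (allB_spec h1 (x (t / D.L)) (by have := hx (t / D.L); omega)) (t % D.L)
      (Nat.mod_lt _ hL0)
    rw [yt t] at ht
    simp only [Bool.or_eq_true, Bool.and_eq_true, Nat.beq_eq, ht, false_or, ← hC] at e
    refine ⟨e.1, e.2, ?_⟩
    simp only [Sub.here, Bool.and_eq_true, Nat.beq_eq, Bool.not_eq_true', ← Bool.not_eq_true, hC]
    exact ⟨ht, trivial⟩
  obtain ⟨n0, n1, n2, n3, c1, c2⟩ := hc
  obtain ⟨b0, pl0, he0⟩ := mem _ n0
  obtain ⟨b1, pl1, he1⟩ := mem _ n1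
  obtain ⟨b2, pl2, he2⟩ := mem _ n2
  obtain ⟨b3, pl3, he3⟩ := mem _ n3
  obtain ⟨z0, hz0⟩ := Cdv n
  obtain ⟨z1, hz1⟩ := Cdv (n + p)
  obtain ⟨z2, hz2⟩ := Cdv (n + 2 * p)
  obtain ⟨z3, hz3⟩ := Cdv (n + 3 * p)
  obtain ⟨d, w, hd, hw⟩ : ∃ d w : ℕ, d < D.L * D.al ∧
      D.L * D.al * w + d + C n = C (n + p) + D.L * D.al := by
    refine ⟨(C (n + p) + D.L * D.al - C n) % (D.L * D.al),
      (C (n + p) + D.L * D.al - C n) / (D.L * D.al), Nat.mod_lt _ hN, ?_⟩
    rw [Nat.div_add_mod]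
    have := Clt n
    omega
  have e1 : C (n + p) = (C n + d) % (D.L * D.al) := by
    refine eq_mod _ _ _ (Clt _) ⟨1 - w, ?_⟩
    zify at hw
    push_cast
    linear_combination hw
  have e2 : C (n + 2 * p) = (C n + 2 * d) % (D.L * D.al) := by
    refine eq_mod _ _ _ (Clt _) ⟨2 - 2 * w + z0 - 2 * z1 + z2, ?_⟩
    zify at hw
    push_cast at hz0 hz1 hz2 ⊢
    linear_combination 2 * hw + hz0 - 2 * hz1 + hz2 - (D.L : ℤ) * c1
  have e3 : C (n + 3 * p) = (C n + 3 * d) % (D.L * D.al) := by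
    refine eq_mod _ _ _ (Clt _) ⟨3 - 3 * w + 2 * z0 - 3 * z1 + z3, ?_⟩
    zify at hw
    push_cast at hz0 hz1 hz2 hz3 ⊢
    linear_combination 3 * hw + 2 * hz0 - 3 * hz1 + hz3 - 2 * (D.L : ℤ) * c1 - (D.L : ℤ) * c2
  have hAP : D.chkAP k d (C n) = true := by
    simp only [Sub.chk2, force_eq] at h2
    have e := allB_spec (allB_spec h2 (d / 100) (by omega)) (d % 100) (Nat.mod_lt _ (by norm_num))
    rw [Nat.div_add_mod] at e
    refine chkBits_spec _ _ _ e _ ?_
    have := Clt n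
    simp only [Nat.testBit_and, Nat.testBit_shiftRight, Bool.and_eq_true]
    refine ⟨⟨⟨b0, quad_bit _ _ _ (by omega) ?_⟩, quad_bit _ _ _ (by omega) ?_⟩,
      quad_bit _ _ _ (by omega) ?_⟩
    · rw [Nat.add_comm, ← e1, b1]
    · rw [Nat.add_comm, ← e2, b2]
    · rw [Nat.add_comm, ← e3, b3]
  simp only [Sub.chkAP, force_eq, ← e1, ← e2, ← e3, pl0, pl1, pl2, pl3] at hAP
  generalize D.findE (n % D.L) ((n + p) % D.L) ((n + 2 * p) % D.L) ((n + 3 * p) % D.L) = e at hAP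
  simp only [Sub.tuples, Bool.and_eq_true] at hAP
  obtain ⟨hpos, hall⟩ := hAP
  have lt : ∀ i, x i < D.M + 1 := fun i => Nat.lt_succ_of_le (hx i)
  have s0 := allB_spec hall _ (lt (n / D.L))
  simp only [he0, Bool.not_true, Bool.false_or] at s0
  have s1 := allB_spec s0 _ (lt ((n + p) / D.L))
  simp only [he1, Bool.not_true, Bool.false_or] at s1
  have s2 := allB_spec s1 _ (lt ((n + 2 * p) / D.L))
  simp only [he2, Bool.not_true, Bool.false_or] at s2
  have s3 := allB_spec s2 _ (lt ((n + 3 * p) / D.L))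
  simp only [he3, Bool.not_true, Bool.false_or, Bool.or_eq_true, Bool.and_eq_true,
    Nat.beq_eq] at s3
  have dm := fun t => (Nat.div_add_mod t D.L).symm
  have ml := fun t => Nat.mod_lt t hL0
  rcases s3 with s3 | ⟨rfl, (s3 | s3) | s3⟩
  · exact descE hL hal hM x hx k n p hp _ _ _ _ _ _ _ _ _ _ _ _ _ _ _ _ (dm _) (dm _) (dm _) (dm _)
      (ml _) (ml _) (ml _) (ml _) (by omega) (by omega) (by omega) (by omega)
      (Ut _) (Ut _) (Ut _) (Ut _) c1 c2 hpos s3
  · refine descE hL hal hM x hx k n p hp _ _ _ _ _ _ _ _ _ _ _ _ _ _ _ _ (dm _) (dm _) (dm _) (dm _)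
      (ml _) (ml _) (ml _) (ml _) le_rfl le_rfl le_rfl le_rfl
      (Ut _) (Ut _) (Ut _) (Ut _) c1 c2 ?_ s3
    simp only [Sub.posE, Bool.and_eq_true, Nat.beq_eq] at hpos ⊢
    omega
  · exact descH hL hal x k 1 n p le_rfl hp _ _ _ _ _ _ _ _ _ _ _ _ (dm _) (dm _) (dm _) (dm _)
      (ml _) (ml _) (Ut _) (Ut _) (Ut _) (Ut _) c1 c2 hpos s3
  · exact descH hL hal x k 2 n p (by norm_num) hp _ _ _ _ _ _ _ _ _ _ _ _ (dm _) (dm _) (dm _)
      (dm _) (ml _) (ml _) (Ut _) (Ut _) (Ut _) (Ut _) c1 c2 hpos s3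

lemma G_le {D : Sub} (h0 : D.chk0 = true) (a r : ℕ) (ha : a ≤ D.M) (hr : r < D.L) :
    D.G a r ≤ D.MC := by
  simp only [Sub.chk0, Bool.and_eq_true] at h0
  have e := allB_spec h0.2 a (by omega)
  simp only [Bool.and_eq_true] at e
  have e2 := allB_spec e.2 r hr
  simp only [Bool.and_eq_true, Nat.ble_eq] at e2
  exact e2.2

end Pool.Agent.H358Z.Cube
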