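import Pool.Agent.H358Z.CubeH
import Pool.Agent.H358Z.CubeM
import Pool.Agent.H358Z.CubeG

/-!
An infinite binary word without long abelian cubes: the image of a fixed point on four letters
under two uniform substitutions.
-/

namespace Pool.Agent.H358Z.Cube

open Finset

/-- the fixed point on four letters -/
def x4 : ℕ → ℕ
  | 0 => 0
  | (n + 1) => DH.G (x4 ((n + 1) / 197)) ((n + 1) % 197)
decreasing_by omega

lemma G00 : DH.G 0 0 = 0 := by decide +kernel

lemma x4_eq (n : ℕ) : x4 n = DH.G (x4 (n / 197)) (n % 197) := by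
  cases n with
  | zero =>
    have h0 : x4 0 = 0 := by rw [x4]
    rw [Nat.zero_div, Nat.zero_mod, h0, G00]
  | succ n => rw [x4]

lemma x4_le (n : ℕ) : x4 n ≤ 3 := by
  induction n using Nat.strong_induction_on with
  | _ n ih =>
    rcases Nat.eq_zero_or_pos n with rfl | hn
    · rw [x4]
      norm_num
    · rw [x4_eq]
      exact G_le c0H _ _ (ih _ (by omega)) (Nat.mod_lt _ (by norm_num))

lemma x4_at (m r : ℕ) (hr : r < 197) : x4 (197 * m + r) = DH.G (x4 m) r := by
  rw [x4_eq, show (197 * m + r) / 197 = m by omega, show (197 * m + r) % 197 = r by omega]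

lemma x4_free (p : ℕ) : ∀ h n, (h = 9 ∨ h = 1 ∨ h = 2) → 0 < p → ¬ Cb x4 h n p := by
  induction p using Nat.strong_induction_on with
  | _ p ih =>
    intro h n hh hp hc
    have key : DH.Desc x4 p := by
      rcases hh with rfl | rfl | rfl
      · exact descH9 x4 x4 x4_le x4_at n p hp hc
      · exact descH1 x4 x4 x4_le x4_at n p hp hc
      · exact descH2 x4 x4 x4_le x4_at n p hp hc
    rcases key with ⟨h1, -⟩ | ⟨h', m, q, h1, h2, h3, -, h5⟩
    · exact absurd h1 (by decide)
    · have e1 : DH.L = 197 := rfl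
      have e2 : DH.M = 3 := rfl
      rw [e1] at h3
      rw [e2] at h1
      exact ih q (by omega) h' m (by omega) h2 h5

/-- the ternary word -/
def x3 (n : ℕ) : ℕ := DM.G (x4 (n / 173)) (n % 173)

lemma x3_le (n : ℕ) : x3 n ≤ 2 := G_le c0M _ _ (x4_le _) (Nat.mod_lt _ (by norm_num))

lemma x3_at (m r : ℕ) (hr : r < 173) : x3 (173 * m + r) = DM.G (x4 m) r := by
  rw [x3, show (173 * m + r) / 173 = m by omega, show (173 * m + r) % 173 = r by omega]

lemma x3_free (p h n : ℕ) (hh : h = 9 ∨ h = 1) (hp : 173 ≤ p) : ¬ Cb x3 h n p := by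
  intro hc
  have key : DM.Desc x4 p := by
    rcases hh with rfl | rfl
    · exact descM9 x4 x3 x4_le x3_at n p (by omega) hc
    · exact descM1 x4 x3 x4_le x3_at n p (by omega) hc
  rcases key with ⟨-, h1⟩ | ⟨h', m, q, h1, h2, -, -, h5⟩
  · have e1 : DM.L = 173 := rfl
    omega
  · have e2 : DM.M = 3 := rfl
    rw [e2] at h1
    exact x4_free q h' m (by omega) h2 h5

/-- the binary word -/
def x2 (n : ℕ) : ℕ := DG.G (x3 (n / 197)) (n % 197)

lemma x2_le (n : ℕ) : x2 n ≤ 1 := G_le c0G _ _ (x3_le _) (Nat.mod_lt _ (by norm_num))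

lemma x2_at (m r : ℕ) (hr : r < 197) : x2 (197 * m + r) = DG.G (x3 m) r := by
  rw [x2, show (197 * m + r) / 197 = m by omega, show (197 * m + r) % 197 = r by omega]

lemma x2_free (p n : ℕ) (hp : 197 * 174 ≤ p) : ¬ Cb x2 9 n p := by
  intro hc
  rcases descG9 x3 x2 x3_le x2_at n p (by omega) hc with ⟨-, h1⟩ | ⟨h', m, q, h1, h2, -, h4, h5⟩
  · have e1 : DG.L = 197 := rfl
    omega
  · have e1 : DG.L = 197 := rfl
    have e2 : DG.M = 2 := rfl
    rw [e1] at h4
    rw [e2] at h1
    exact x3_free q h' m (by omega) (by omega) h5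

lemma card_eq (a b : ℕ) (hab : a ≤ b) :
    ((((Ico a b).filter (fun j => decide (x2 j = 1) = true)).card : ℕ) : ℤ) = S x2 b - S x2 a := by
  unfold S
  rw [← sum_Ico_eq_sub _ hab, card_filter]
  push_cast
  refine sum_congr rfl fun j _ => ?_
  have := x2_le j
  rcases (by omega : x2 j = 0 ∨ x2 j = 1) with h | h <;> simp [h]

theorem main : ∃ w : ℕ → Bool, ∃ N : ℕ, ∀ i n : ℕ, N ≤ n →
      ¬ ((((Finset.Ico i (i + n)).filter (fun j => w j = true)).card =
            ((Finset.Ico (i + n) (i + 2 * n)).filter (fun j => w j = true)).card) ∧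
         (((Finset.Ico (i + n) (i + 2 * n)).filter (fun j => w j = true)).card =
            ((Finset.Ico (i + 2 * n) (i + 3 * n)).filter (fun j => w j = true)).card)) := by
  refine ⟨fun j => decide (x2 j = 1), 197 * 174, fun i n hn h => x2_free n i hn ?_⟩
  have n9 : ∀ t, x2 t ≠ 9 := fun t => by have := x2_le t; omega
  have u9 : ∀ t, U x2 9 t = S x2 t := fun t => by
    have := x2_le t
    simp [U, show x2 t - 9 = 0 by omega]
  have e1 := card_eq i (i + n) (by omega)
  have e2 := card_eq (i + n) (i + 2 * n) (by omega)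
  have e3 := card_eq (i + 2 * n) (i + 3 * n) (by omega)
  obtain ⟨h1, h2⟩ := h
  beta_reduce at h1 h2
  refine ⟨n9 _, n9 _, n9 _, n9 _, ?_, ?_⟩
  · rw [u9, u9, u9]
    omega
  · rw [u9, u9, u9]
    omega

end Pool.Agent.H358Z.Cube
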