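import Mathlib

/-!
Two-dimensional Toeplitz colourings of the plane lattice with period 11: the general theory.
A colouring `c` agrees with a periodic pattern off the sublattice `(11ℤ)²` and satisfies
`c (11 x) (11 y) = c x y`.  Finite conditions on the pattern imply that no square of even side
has the same colour counts in its left and right halves.
-/

namespace Pool.Agent.H358Z.Neck

open Finset

/-- centred indicator of a colour -/
def g (a j : Fin 3) : ℤ := if a = j then 2 else -1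

/-- sum over a rectangle -/
noncomputable def S (f : ℤ → ℤ → ℤ) (x1 x2 y1 y2 : ℤ) : ℤ := ∑ u ∈ Ico x1 x2, ∑ v ∈ Ico y1 y2, f u v

/-- ceiling of `x / 11` -/
def up (x : ℤ) : ℤ := (x + 10) / 11

/-- difference of the sums over two adjacent rectangles -/
noncomputable def TT (f : ℤ → ℤ → ℤ) (x a1 a2 y b : ℤ) : ℤ :=
  S f x (x + a1) y (y + b) - S f (x + a1) (x + a1 + a2) y (y + b)

/-- the same difference written with a second-order primitive -/
def T0 (P : ℤ → ℤ → ℤ) (x a1 a2 y b : ℤ) : ℤ :=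
  2 * (P (x + a1) (y + b) - P (x + a1) y) - (P x (y + b) - P x y)
    - (P (x + a1 + a2) (y + b) - P (x + a1 + a2) y)

lemma sum_holes (f : ℤ → ℤ) (x1 x2 : ℤ) :
    ∑ u ∈ Ico x1 x2, (if (11 : ℤ) ∣ u then f (u / 11) else 0) = ∑ u ∈ Ico (up x1) (up x2), f u := by
  rw [← sum_filter]
  symm
  refine sum_nbij' (fun u => 11 * u) (fun u => u / 11) ?_ ?_ ?_ ?_ ?_
  · intro a ha
    simp only [mem_Ico, mem_filter, up] at ha ⊢
    omega
  · intro a ha
    simp only [mem_Ico, mem_filter, up] at ha ⊢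
    omega
  · intro a _
    simp
  · intro a ha
    simp only [mem_Ico, mem_filter] at ha ⊢
    omega
  · intro a _
    simp

lemma tele (h : ℤ → ℤ) (a b : ℤ) (hab : a ≤ b) :
    ∑ u ∈ Ico a b, (h (u + 1) - h u) = h b - h a := by
  induction b, hab using Int.leInduction with
  | base => simp
  | succ n hn ih =>
    have e : Ico a (n + 1) = insert n (Ico a n) := by
      ext u
      simp only [mem_Ico, mem_insert]
      omega
    rw [e, sum_insert (by simp), ih]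
    ring

lemma S_tele (P f : ℤ → ℤ → ℤ)
    (hD : ∀ u v, P (u + 1) (v + 1) - P u (v + 1) - P (u + 1) v + P u v = f u v)
    (x1 x2 y1 y2 : ℤ) (hx : x1 ≤ x2) (hy : y1 ≤ y2) :
    S f x1 x2 y1 y2 = P x2 y2 - P x1 y2 - P x2 y1 + P x1 y1 := by
  unfold S
  have e : ∀ u, ∑ v ∈ Ico y1 y2, f u v
      = (fun w => P w y2 - P w y1) (u + 1) - (fun w => P w y2 - P w y1) u := by
    intro u
    have := tele (fun v => P (u + 1) v - P u v) y1 y2 hy
    simp only at this ⊢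
    rw [show P (u + 1) y2 - P (u + 1) y1 - (P u y2 - P u y1)
      = P (u + 1) y2 - P u y2 - (P (u + 1) y1 - P u y1) by ring, ← this]
    refine sum_congr rfl fun v _ => ?_
    rw [← hD]
    ring
  rw [sum_congr rfl fun u _ => e u, tele (fun w => P w y2 - P w y1) x1 x2 hx]
  ring

lemma S_bound (f : ℤ → ℤ → ℤ) (hf : ∀ u v, -1 ≤ f u v ∧ f u v ≤ 2) (x a y b : ℤ)
    (ha : 0 ≤ a) (hb : 0 ≤ b) :
    -(a * b) ≤ S f x (x + a) y (y + b) ∧ S f x (x + a) y (y + b) ≤ 2 * (a * b) := by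
  have c1 : ∀ k : ℤ, ∑ _u ∈ Ico x (x + a), ∑ _v ∈ Ico y (y + b), k = k * (a * b) := by
    intro k
    simp only [sum_const, Int.card_Ico, add_sub_cancel_left, nsmul_eq_mul]
    rw [Int.toNat_of_nonneg ha, Int.toNat_of_nonneg hb]
    ring
  constructor
  · have := c1 (-1)
    rw [show -(a * b) = -1 * (a * b) by ring, ← this]
    exact sum_le_sum fun u _ => sum_le_sum fun v _ => (hf u v).1
  · rw [← c1 2]
    exact sum_le_sum fun u _ => sum_le_sum fun v _ => (hf u v).2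

lemma TT_bound (f : ℤ → ℤ → ℤ) (hf : ∀ u v, -1 ≤ f u v ∧ f u v ≤ 2) (x a1 a2 y b : ℤ)
    (h1 : 0 ≤ a1) (h2 : 0 ≤ a2) (hb : 0 ≤ b) :
    -((a1 + 2 * a2) * b) ≤ TT f x a1 a2 y b ∧ TT f x a1 a2 y b ≤ (2 * a1 + a2) * b := by
  have e1 := S_bound f hf x a1 y b h1 hb
  have e2 := S_bound f hf (x + a1) a2 y b h2 hb
  unfold TT
  constructor <;> nlinarith [e1.1, e1.2, e2.1, e2.2]

/-- The data for one colour: the function `f`, a primitive `P` of its periodic part. -/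
structure Toe (f P : ℤ → ℤ → ℤ) : Prop where
  bd : ∀ u v, -1 ≤ f u v ∧ f u v ≤ 2
  dif : ∀ u v, P (u + 1) (v + 1) - P u (v + 1) - P (u + 1) v + P u v
    = f u v - (if (11 : ℤ) ∣ u then (if (11 : ℤ) ∣ v then f (u / 11) (v / 11) else 0) else 0)
  shift : ∃ r k : ℤ → ℤ, ∀ x y p q, P (x + 11 * p) (y + 11 * q) = P x y + p * r y + q * k x

lemma S_decomp {f P : ℤ → ℤ → ℤ} (h : Toe f P) (x1 x2 y1 y2 : ℤ) (hx : x1 ≤ x2) (hy : y1 ≤ y2) :
    S f x1 x2 y1 y2 = P x2 y2 - P x1 y2 - P x2 y1 + P x1 y1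
      + S f (up x1) (up x2) (up y1) (up y2) := by
  rw [← S_tele P _ h.dif x1 x2 y1 y2 hx hy]
  have e : S f (up x1) (up x2) (up y1) (up y2) = ∑ u ∈ Ico x1 x2, ∑ v ∈ Ico y1 y2,
      (if (11 : ℤ) ∣ u then (if (11 : ℤ) ∣ v then f (u / 11) (v / 11) else 0) else 0) := by
    unfold S
    rw [← sum_holes (fun u => ∑ v ∈ Ico (up y1) (up y2), f u v) x1 x2]
    refine sum_congr rfl fun u _ => ?_
    split_ifs with hu
    · exact (sum_holes (fun v => f (u / 11) v) y1 y2).symm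
    · simp
  rw [e]
  unfold S
  rw [← sum_add_distrib]
  refine sum_congr rfl fun u _ => ?_
  rw [← sum_add_distrib]
  refine sum_congr rfl fun v _ => ?_
  ring

lemma T0_shift {f P : ℤ → ℤ → ℤ} (h : Toe f P) (x a1 a2 y b p q m : ℤ) :
    T0 P (x + 11 * p) (a1 + 11 * m) (a2 + 11 * m) (y + 11 * q) (b + 22 * m)
      = T0 P x a1 a2 y b + 2 * m * T0 P x a1 a2 0 11 := by
  obtain ⟨r, k, hs⟩ := h.shift
  have k1 : ∀ z, P z (0 + 11) = P z 0 + k z := by
    intro z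
    have := hs z 0 0 1
    simpa using this
  unfold T0
  rw [show x + 11 * p + (a1 + 11 * m) + (a2 + 11 * m) = (x + a1 + a2) + 11 * (p + 2 * m) by ring,
    show x + 11 * p + (a1 + 11 * m) = (x + a1) + 11 * (p + m) by ring,
    show y + 11 * q + (b + 22 * m) = (y + b) + 11 * (q + 2 * m) by ring]
  simp only [hs, k1]
  ring

/-- the descent identity -/
lemma TT_decomp {f P : ℤ → ℤ → ℤ} (h : Toe f P) (x a1 a2 y b p q m : ℤ)
    (h1 : 0 ≤ a1) (h2 : 0 ≤ a2) (hb : 0 ≤ b) (hm : 0 ≤ m) :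
    TT f (x + 11 * p) (a1 + 11 * m) (a2 + 11 * m) (y + 11 * q) (b + 22 * m)
      = T0 P x a1 a2 y b + 2 * m * T0 P x a1 a2 0 11
        + TT f (up x + p) (up (x + a1) - up x + m) (up (x + a1 + a2) - up (x + a1) + m)
          (up y + q) (up (y + b) - up y + 2 * m) := by
  rw [← T0_shift h x a1 a2 y b p q m]
  unfold TT T0
  rw [S_decomp h _ _ _ _ (by omega) (by omega),
    S_decomp h (x + 11 * p + (a1 + 11 * m)) _ _ _ (by omega) (by omega)]
  rw [show up (x + 11 * p) = up x + p by unfold up; omega,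
    show up (x + 11 * p + (a1 + 11 * m)) = up x + p + (up (x + a1) - up x + m) by
      unfold up; omega,
    show up (x + 11 * p + (a1 + 11 * m) + (a2 + 11 * m))
      = up x + p + (up (x + a1) - up x + m) + (up (x + a1 + a2) - up (x + a1) + m) by
      unfold up; omega,
    show up (y + 11 * q) = up y + q by unfold up; omega,
    show up (y + 11 * q + (b + 22 * m)) = up y + q + (up (y + b) - up y + 2 * m) by
      unfold up; omega]
  ring

/-- the finite conditions giving the linear bound -/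
structure PsiOK (P : ℤ → ℤ → ℤ) : Prop where
  base : ∀ x y a1 a2 b : ℤ, 0 ≤ x → x < 11 → 0 ≤ y → y < 11 → 0 ≤ a1 → a1 ≤ 11 → 0 ≤ a2 →
    a2 ≤ 11 → 0 ≤ b → b ≤ 22 → a1 ≤ a2 + 1 → a2 ≤ a1 + 1 → a1 + a2 ≤ b + 1 → b ≤ a1 + a2 + 1 →
    2 * (T0 P x a1 a2 y b + (2 * (up (x + a1) - up x) + (up (x + a1 + a2) - up (x + a1)))
      * (up (y + b) - up y)) ≤ 5 * (a1 + a2 + b) + 8 ∧
    2 * (-T0 P x a1 a2 y b + ((up (x + a1) - up x) + 2 * (up (x + a1 + a2) - up (x + a1)))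
      * (up (y + b) - up y)) ≤ 5 * (a1 + a2 + b) + 8
  slope : ∀ x a1 a2 : ℤ, 0 ≤ x → x < 11 → 0 ≤ a1 → a1 ≤ 11 → 0 ≤ a2 → a2 ≤ 11 →
    a1 ≤ a2 + 1 → a2 ≤ a1 + 1 → -42 ≤ T0 P x a1 a2 0 11 ∧ T0 P x a1 a2 0 11 ≤ 42

lemma psi_bound {f P : ℤ → ℤ → ℤ} (h : Toe f P) (hp : PsiOK P) (n : ℕ) :
    ∀ x y a1 a2 b : ℤ, b < n → 0 ≤ a1 → 0 ≤ a2 → 0 ≤ b → a1 ≤ a2 + 1 → a2 ≤ a1 + 1 →
      a1 + a2 ≤ b + 1 → b ≤ a1 + a2 + 1 →
      2 * TT f x a1 a2 y b ≤ 5 * (a1 + a2 + b) + 8 ∧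
        -(5 * (a1 + a2 + b) + 8) ≤ 2 * TT f x a1 a2 y b := by
  induction n with
  | zero => intro x y a1 a2 b hb _ _ hb0; omega
  | succ n ih =>
    intro x y a1 a2 b hb h1 h2 hb0 i1 i2 i3 i4
    obtain ⟨m, c1, c2, d, hm, rfl, rfl, rfl, g1, g2, g3, g4, g5, g6⟩ :
        ∃ m c1 c2 d : ℤ, 0 ≤ m ∧ a1 = c1 + 11 * m ∧ a2 = c2 + 11 * m ∧ b = d + 22 * m ∧
          0 ≤ c1 ∧ c1 ≤ 11 ∧ 0 ≤ c2 ∧ c2 ≤ 11 ∧ 0 ≤ d ∧ d ≤ 22 :=
      ⟨min (min a1 a2) (b / 2) / 11, a1 - 11 * (min (min a1 a2) (b / 2) / 11),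
        a2 - 11 * (min (min a1 a2) (b / 2) / 11), b - 22 * (min (min a1 a2) (b / 2) / 11),
        by omega, by omega, by omega, by omega, by omega, by omega, by omega, by omega,
        by omega, by omega⟩
    obtain ⟨r, p, rfl, r0, r1⟩ : ∃ r p : ℤ, x = r + 11 * p ∧ 0 ≤ r ∧ r < 11 :=
      ⟨x % 11, x / 11, by omega, by omega, by omega⟩
    obtain ⟨s, q, rfl, s0, s1⟩ : ∃ r p : ℤ, y = r + 11 * p ∧ 0 ≤ r ∧ r < 11 :=
      ⟨y % 11, y / 11, by omega, by omega, by omega⟩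
    rw [TT_decomp h r c1 c2 s d p q m g1 g3 g5 hm]
    have hb1 := hp.base r s c1 c2 d r0 r1 s0 s1 g1 g2 g3 g4 g5 g6 (by omega) (by omega)
      (by omega) (by omega)
    have hs1 := hp.slope r c1 c2 r0 r1 g1 g2 g3 g4 (by omega) (by omega)
    have u1 : 0 ≤ up (r + c1) - up r ∧ up (r + c1) - up r ≤ 1 := by unfold up; omega
    have u2 : 0 ≤ up (r + c1 + c2) - up (r + c1) ∧ up (r + c1 + c2) - up (r + c1) ≤ 1 := by
      unfold up; omega
    have u3 : 0 ≤ up (s + d) - up s ∧ up (s + d) - up s ≤ 2 := by unfold up; omega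
    have u4 : (up (r + c1) - up r) + (up (r + c1 + c2) - up (r + c1)) ≤ (up (s + d) - up s) + 1 ∧
        (up (s + d) - up s) ≤ (up (r + c1) - up r) + (up (r + c1 + c2) - up (r + c1)) + 1 := by
      unfold up; omega
    generalize up (r + c1) - up r = k1 at *
    generalize up (r + c1 + c2) - up (r + c1) = k2 at *
    generalize up (s + d) - up s = k3 at *
    generalize T0 P r c1 c2 s d = V at *
    generalize T0 P r c1 c2 0 11 = A at *
    rcases eq_or_lt_of_le hm with rfl | hm1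
    · have := TT_bound f h.bd (up r + p) (k1 + 0) (k2 + 0) (up s + q) (k3 + 2 * 0) (by omega)
        (by omega) (by omega)
      simp only [add_zero, mul_zero, zero_mul] at this ⊢
      constructor <;> linarith [this.1, this.2, hb1.1, hb1.2]
    · have := ih (up r + p) (up s + q) (k1 + m) (k2 + m) (k3 + 2 * m) (by push_cast at hb; omega)
        (by omega) (by omega) (by omega) (by omega) (by omega) (by omega) (by omega)
      have m1 : m * A ≤ m * 42 := mul_le_mul_of_nonneg_left hs1.2 hm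
      have m2 : m * (-42) ≤ m * A := mul_le_mul_of_nonneg_left hs1.1 hm
      have p1 : 0 ≤ (2 * k1 + k2) * k3 := mul_nonneg (by omega) u3.1
      have p2 : 0 ≤ (k1 + 2 * k2) * k3 := mul_nonneg (by omega) u3.1
      have m3 : 1 ≤ m := hm1
      constructor <;> nlinarith [this.1, this.2, hb1.1, hb1.2, u1.2, u2.2, u3.2]

/-- `v` cannot be cancelled by the coarser level -/
def Esc (v k1 k2 k3 : ℤ) : Prop :=
  (k1 + 2 * k2) * k3 < v ∨ v < -((2 * k1 + k2) * k3) ∨ 5 * (k1 + k2 + k3) + 8 < 2 * v ∨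
    2 * v < -(5 * (k1 + k2 + k3) + 8)

/-- `V + 2 m A` cannot be cancelled for any `m ≥ 2` -/
def Fin2 (V A k : ℤ) : Prop :=
  (5 ≤ A ∧ 5 * (k + 8) + 8 < 2 * (V + 4 * A)) ∨ (A ≤ -5 ∧ 2 * (V + 4 * A) < -(5 * (k + 8) + 8))

/-- the finite conditions on squares -/
def MainOK (P : Fin 3 → ℤ → ℤ → ℤ) : Prop :=
  ∀ x y a : ℤ, 0 ≤ x → x < 11 → 0 ≤ y → y < 11 → 1 ≤ a → a < 11 →
    (∃ j, Esc (T0 (P j) x a a y (2 * a)) (up (x + a) - up x) (up (x + a + a) - up (x + a))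
      (up (y + 2 * a) - up y)) ∧
    (∃ j, Esc (T0 (P j) x a a y (2 * a) + 2 * T0 (P j) x a a 0 11) (up (x + a) - up x + 1)
      (up (x + a + a) - up (x + a) + 1) (up (y + 2 * a) - up y + 2)) ∧
    (∃ j, Fin2 (T0 (P j) x a a y (2 * a)) (T0 (P j) x a a 0 11)
      ((up (x + a) - up x) + (up (x + a + a) - up (x + a)) + (up (y + 2 * a) - up y)))

lemma esc_ne {f P : ℤ → ℤ → ℤ} (h : Toe f P) (hp : PsiOK P) (v x k1 k2 y k3 : ℤ)
    (he : Esc v k1 k2 k3) (h1 : 0 ≤ k1) (h2 : 0 ≤ k2) (h3 : 0 ≤ k3) (i1 : k1 ≤ k2 + 1)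
    (i2 : k2 ≤ k1 + 1) (i3 : k1 + k2 ≤ k3 + 1) (i4 : k3 ≤ k1 + k2 + 1) :
    v + TT f x k1 k2 y k3 ≠ 0 := by
  have e1 := TT_bound f h.bd x k1 k2 y k3 h1 h2 h3
  have e2 := psi_bound h hp (k3.toNat + 1) x y k1 k2 k3 (by push_cast; omega) h1 h2 h3 i1 i2 i3 i4
  intro h0
  rcases he with he | he | he | he <;> linarith [e1.1, e1.2, e2.1, e2.2]

theorem main_ne (f P : Fin 3 → ℤ → ℤ → ℤ) (h : ∀ j, Toe (f j) (P j)) (hp : ∀ j, PsiOK (P j))
    (hM : MainOK P) (n : ℕ) :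
    ∀ a x y : ℤ, a < n → 1 ≤ a → ∃ j, TT (f j) x a a y (2 * a) ≠ 0 := by
  induction n with
  | zero => intro a x y h1 h2; omega
  | succ n ih =>
    intro a x y h1 h2
    obtain ⟨c, m, rfl, c0, c1, hm⟩ : ∃ c m : ℤ, a = c + 11 * m ∧ 0 ≤ c ∧ c < 11 ∧ 0 ≤ m :=
      ⟨a % 11, a / 11, by omega, by omega, by omega, by omega⟩
    obtain ⟨r, p, rfl, r0, r1⟩ : ∃ r p : ℤ, x = r + 11 * p ∧ 0 ≤ r ∧ r < 11 :=
      ⟨x % 11, x / 11, by omega, by omega, by omega⟩
    obtain ⟨s, q, rfl, s0, s1⟩ : ∃ r p : ℤ, y = r + 11 * p ∧ 0 ≤ r ∧ r < 11 :=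
      ⟨y % 11, y / 11, by omega, by omega, by omega⟩
    have dec : ∀ j, TT (f j) (r + 11 * p) (c + 11 * m) (c + 11 * m) (s + 11 * q)
        (2 * (c + 11 * m)) = T0 (P j) r c c s (2 * c) + 2 * m * T0 (P j) r c c 0 11
        + TT (f j) (up r + p) (up (r + c) - up r + m) (up (r + c + c) - up (r + c) + m)
          (up s + q) (up (s + 2 * c) - up s + 2 * m) := by
      intro j
      rw [show 2 * (c + 11 * m) = 2 * c + 22 * m by ring]
      exact TT_decomp (h j) r c c s (2 * c) p q m c0 c0 (by omega) hm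
    simp only [dec]
    rcases eq_or_lt_of_le c0 with rfl | c2
    · obtain ⟨j, hj⟩ := ih m (up r + p) (up s + q) (by push_cast at h1; omega) (by omega)
      refine ⟨j, ?_⟩
      have z1 : T0 (P j) r 0 0 s (2 * 0) = 0 := by simp [T0]
      have z2 : T0 (P j) r 0 0 0 11 = 0 := by
        simp only [T0, add_zero]
        ring
      rw [z1, z2]
      simpa using hj
    · obtain ⟨e0, e1, e2⟩ := hM r s c r0 r1 s0 s1 c2 c1
      have u1 : 0 ≤ up (r + c) - up r ∧ up (r + c) - up r ≤ 1 := by unfold up; omega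
      have u2 : 0 ≤ up (r + c + c) - up (r + c) ∧ up (r + c + c) - up (r + c) ≤ 1 := by
        unfold up; omega
      have u3 : 0 ≤ up (s + 2 * c) - up s := by unfold up; omega
      have u4 : (up (r + c) - up r) + (up (r + c + c) - up (r + c))
            ≤ (up (s + 2 * c) - up s) + 1 ∧
          (up (s + 2 * c) - up s)
            ≤ (up (r + c) - up r) + (up (r + c + c) - up (r + c)) + 1 := by
        unfold up; omega
      generalize up (r + c) - up r = k1 at *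
      generalize up (r + c + c) - up (r + c) = k2 at *
      generalize up (s + 2 * c) - up s = k3 at *
      rcases (by omega : m = 0 ∨ m = 1 ∨ 2 ≤ m) with rfl | rfl | m2
      · obtain ⟨j, hj⟩ := e0
        refine ⟨j, esc_ne (h j) (hp j) _ _ _ _ _ _ ?_ (by omega) (by omega) (by omega) (by omega)
          (by omega) (by omega) (by omega)⟩
        simpa using hj
      · obtain ⟨j, hj⟩ := e1
        refine ⟨j, esc_ne (h j) (hp j) _ _ _ _ _ _ ?_ (by omega) (by omega) (by omega) (by omega)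
          (by omega) (by omega) (by omega)⟩
        simpa using hj
      · obtain ⟨j, hj⟩ := e2
        refine ⟨j, esc_ne (h j) (hp j) _ _ _ _ _ _ ?_ (by omega) (by omega) (by omega) (by omega)
          (by omega) (by omega) (by omega)⟩
        generalize T0 (P j) r c c s (2 * c) = V at *
        generalize T0 (P j) r c c 0 11 = A at *
        rcases hj with ⟨a1, a2⟩ | ⟨a1, a2⟩
        · right; right; left
          have : (m - 2) * 5 ≤ (m - 2) * A := mul_le_mul_of_nonneg_left a1 (by omega)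
          nlinarith
        · right; right; right
          have : (m - 2) * A ≤ (m - 2) * (-5) := mul_le_mul_of_nonneg_left a1 (by omega)
          nlinarith

end Pool.Agent.H358Z.Neck
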