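import Pool.Agent.H358Z.NeckA

/-!
Boolean versions of the finite conditions of `NeckA`, for a table `F` of natural numbers holding
the second-order primitive shifted by 128.
-/

namespace Pool.Agent.H358Z.Neck

/-- bounded universal quantifier on booleans -/
noncomputable def allB (n : ℕ) (f : ℕ → Bool) : Bool :=
  Nat.rec (motive := fun _ => Bool) true (fun k ih => f k && ih) n

lemma allB_spec {n : ℕ} {f : ℕ → Bool} (h : allB n f = true) : ∀ k, k < n → f k = true := by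
  induction n with
  | zero => intro k hk; omega
  | succ n ih =>
    have h' : (f n && allB n f) = true := h
    rw [Bool.and_eq_true] at h'
    intro k hk
    rcases (by omega : k = n ∨ k < n) with rfl | hk'
    · exact h'.1
    · exact ih h'.2 k hk'

/-- the primitive on the whole lattice -/
def Ph (F : ℕ → ℕ → ℕ) (x y : ℤ) : ℤ :=
  ((F (x % 11).toNat (y % 11).toNat : ℤ) - 128) + (x / 11) * ((F 11 (y % 11).toNat : ℤ) - 128)
    + (y / 11) * ((F (x % 11).toNat 11 : ℤ) - 128)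

lemma Ph_shift (F : ℕ → ℕ → ℕ) (x y p q : ℤ) :
    Ph F (x + 11 * p) (y + 11 * q) = Ph F x y + p * ((F 11 (y % 11).toNat : ℤ) - 128)
      + q * ((F (x % 11).toNat 11 : ℤ) - 128) := by
  unfold Ph
  rw [show (x + 11 * p) % 11 = x % 11 by omega, show (y + 11 * q) % 11 = y % 11 by omega,
    show (x + 11 * p) / 11 = x / 11 + p by omega, show (y + 11 * q) / 11 = y / 11 + q by omega]
  ring

noncomputable def chkTab (F : ℕ → ℕ → ℕ) : Bool :=
  allB 34 fun x => allB 34 fun y =>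
    Nat.beq (F x y + 128 * (x / 11 + y / 11))
      (F (x % 11) (y % 11) + (x / 11) * F 11 (y % 11) + (y / 11) * F (x % 11) 11)

lemma Ph_eq {F : ℕ → ℕ → ℕ} (h : chkTab F = true) (x y : ℕ) (hx : x < 34) (hy : y < 34) :
    Ph F x y = (F x y : ℤ) - 128 := by
  have e := Nat.eq_of_beq_eq_true (allB_spec (allB_spec h x hx) y hy)
  have e' := congrArg (fun n : ℕ => (n : ℤ)) e
  simp only [Nat.cast_add, Nat.cast_mul, Nat.cast_ofNat, Int.natCast_div] at e'
  unfold Ph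
  rw [show ((x : ℤ) % 11).toNat = x % 11 by omega, show ((y : ℤ) % 11).toNat = y % 11 by omega]
  linarith

noncomputable def chkDif (F : ℕ → ℕ → ℕ) (t : ℕ → ℕ → Fin 3) (j : Fin 3) : Bool :=
  allB 11 fun x => allB 11 fun y =>
    Nat.beq (F (x + 1) (y + 1) + F x y + 1)
      (F x (y + 1) + F (x + 1) y + (if x = 0 ∧ y = 0 then 1 else if t x y = j then 3 else 0))

lemma toe_of_chk {F : ℕ → ℕ → ℕ} {t : ℕ → ℕ → Fin 3} {j : Fin 3} (h : chkTab F = true)
    (hd : chkDif F t j = true) (c : ℤ → ℤ → Fin 3)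
    (H1 : ∀ u v : ℤ, ¬ ((11 : ℤ) ∣ u ∧ (11 : ℤ) ∣ v) → c u v = t (u % 11).toNat (v % 11).toNat)
    (H2 : ∀ u v : ℤ, c (11 * u) (11 * v) = c u v) :
    Toe (fun u v => g (c u v) j) (Ph F) where
  bd u v := by
    unfold g
    split_ifs <;> omega
  shift := ⟨_, _, Ph_shift F⟩
  dif u v := by
    obtain ⟨r, p, rfl, r1⟩ : ∃ (r : ℕ) (p : ℤ), u = r + 11 * p ∧ r < 11 :=
      ⟨(u % 11).toNat, u / 11, by omega, by omega⟩
    obtain ⟨s, q, rfl, s1⟩ : ∃ (r : ℕ) (p : ℤ), v = r + 11 * p ∧ r < 11 :=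
      ⟨(v % 11).toNat, v / 11, by omega, by omega⟩
    have e := Nat.eq_of_beq_eq_true (allB_spec (allB_spec hd r r1) s s1)
    have e' := congrArg (fun n : ℕ => (n : ℤ)) e
    simp only [Nat.cast_add, Nat.cast_ofNat, Nat.cast_one, Nat.cast_ite, Nat.cast_zero] at e'
    rw [show (r : ℤ) + 11 * p + 1 = ((r + 1 : ℕ) : ℤ) + 11 * p by push_cast; ring,
      show (s : ℤ) + 11 * q + 1 = ((s + 1 : ℕ) : ℤ) + 11 * q by push_cast; ring]
    simp only [Ph_shift]
    rw [Ph_eq h _ _ (by omega) (by omega), Ph_eq h _ _ (by omega) (by omega),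
      Ph_eq h _ _ (by omega) (by omega), Ph_eq h _ _ (by omega) (by omega)]
    by_cases hz : r = 0 ∧ s = 0
    · obtain ⟨rfl, rfl⟩ := hz
      simp only [and_self, if_true] at e'
      simp only [Nat.cast_zero, zero_add, dvd_mul_right, if_true, H2]
      rw [Int.mul_ediv_cancel_left _ (by norm_num), Int.mul_ediv_cancel_left _ (by norm_num)]
      simp only [zero_add] at e'
      linarith
    · have hn : ¬ ((11 : ℤ) ∣ (r : ℤ) + 11 * p ∧ (11 : ℤ) ∣ (s : ℤ) + 11 * q) := by omega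
      rw [if_neg hz] at e'
      rw [H1 _ _ hn, show (((r : ℤ) + 11 * p) % 11).toNat = r by omega,
        show (((s : ℤ) + 11 * q) % 11).toNat = s by omega]
      have z : (if (11 : ℤ) ∣ (r : ℤ) + 11 * p then (if (11 : ℤ) ∣ (s : ℤ) + 11 * q then
          g (c (((r : ℤ) + 11 * p) / 11) (((s : ℤ) + 11 * q) / 11)) j else 0) else 0) = 0 := by
        split_ifs with a1 a2
        · exact absurd ⟨a1, a2⟩ hn
        · rfl
        · rfl
      rw [z]
      unfold g
      split_ifs at e' ⊢ <;> linarith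

def pos (F : ℕ → ℕ → ℕ) (x a1 a2 y b : ℕ) : ℕ :=
  2 * F (x + a1) (y + b) + F x y + F (x + a1 + a2) y

def neg (F : ℕ → ℕ → ℕ) (x a1 a2 y b : ℕ) : ℕ :=
  2 * F (x + a1) y + F x (y + b) + F (x + a1 + a2) (y + b)

def cn (x a : ℕ) : ℕ := (x + a + 10) / 11 - (x + 10) / 11

lemma cn_eq (x a : ℕ) : up ((x : ℤ) + a) - up x = cn x a := by
  unfold up cn
  omega

lemma cn_eq2 (x a b : ℕ) : up ((x : ℤ) + a + b) - up (x + a) = cn (x + a) b := by
  unfold up cn
  omega

lemma T0_eq {F : ℕ → ℕ → ℕ} (h : chkTab F = true) (x a1 a2 y b : ℕ) (hx : x + a1 + a2 < 34)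
    (hy : y + b < 34) :
    T0 (Ph F) x a1 a2 y b = (pos F x a1 a2 y b : ℤ) - neg F x a1 a2 y b := by
  unfold T0 pos neg
  rw [show (x : ℤ) + a1 + a2 = ((x + a1 + a2 : ℕ) : ℤ) by push_cast; ring,
    show (x : ℤ) + a1 = ((x + a1 : ℕ) : ℤ) by push_cast; ring,
    show (y : ℤ) + b = ((y + b : ℕ) : ℤ) by push_cast; ring]
  rw [Ph_eq h _ _ (by omega) (by omega), Ph_eq h _ _ (by omega) (by omega),
    Ph_eq h _ _ (by omega) (by omega), Ph_eq h _ _ (by omega) (by omega),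
    Ph_eq h _ _ (by omega) (by omega), Ph_eq h _ _ (by omega) (by omega)]
  push_cast
  ring

lemma T0_eq' {F : ℕ → ℕ → ℕ} (h : chkTab F = true) (x a1 a2 : ℕ) (hx : x + a1 + a2 < 34) :
    T0 (Ph F) x a1 a2 0 11 = (pos F x a1 a2 0 11 : ℤ) - neg F x a1 a2 0 11 := by
  have := T0_eq h x a1 a2 0 11 hx (by norm_num)
  simpa using this

def cell (p n k1 k2 k3 s : ℕ) : Bool :=
  Nat.ble (2 * (p + (2 * k1 + k2) * k3)) (2 * n + s) &&
    Nat.ble (2 * (n + (k1 + 2 * k2) * k3)) (2 * p + s)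

noncomputable def chkPsi (F : ℕ → ℕ → ℕ) : Bool :=
  allB 12 fun a1 => allB 12 fun a2 =>
    !(Nat.ble a1 (a2 + 1) && Nat.ble a2 (a1 + 1)) ||
      ((allB 11 fun x => Nat.ble (pos F x a1 a2 0 11) (neg F x a1 a2 0 11 + 42) &&
          Nat.ble (neg F x a1 a2 0 11) (pos F x a1 a2 0 11 + 42)) &&
        allB 23 fun b => !(Nat.ble (a1 + a2) (b + 1) && Nat.ble b (a1 + a2 + 1)) ||
          allB 11 fun x => allB 11 fun y =>
            cell (pos F x a1 a2 y b) (neg F x a1 a2 y b) (cn x a1) (cn (x + a1) a2) (cn y b)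
              (5 * (a1 + a2 + b) + 8))

lemma psi_of_chk {F : ℕ → ℕ → ℕ} (h : chkTab F = true) (hp : chkPsi F = true) :
    PsiOK (Ph F) where
  base x y a1 a2 b x0 x1 y0 y1 p0 p1 q0 q1 b0 b1 i1 i2 i3 i4 := by
    lift x to ℕ using x0
    lift y to ℕ using y0
    lift a1 to ℕ using p0
    lift a2 to ℕ using q0
    lift b to ℕ using b0
    have e := allB_spec (allB_spec hp a1 (by omega)) a2 (by omega)
    rw [Nat.ble_eq_true_of_le (by omega : a1 ≤ a2 + 1),
      Nat.ble_eq_true_of_le (by omega : a2 ≤ a1 + 1)] at e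
    simp only [Bool.and_self, Bool.not_true, Bool.false_or, Bool.and_eq_true] at e
    have e2 := allB_spec e.2 b (by omega)
    rw [Nat.ble_eq_true_of_le (by omega : a1 + a2 ≤ b + 1),
      Nat.ble_eq_true_of_le (by omega : b ≤ a1 + a2 + 1)] at e2
    simp only [Bool.and_self, Bool.not_true, Bool.false_or] at e2
    have e3 := allB_spec (allB_spec e2 x (by omega)) y (by omega)
    simp only [cell, Bool.and_eq_true, Nat.ble_eq] at e3
    rw [T0_eq h x a1 a2 y b (by omega) (by omega), cn_eq, cn_eq, cn_eq2]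
    obtain ⟨e4, e5⟩ := e3
    zify at e4 e5
    constructor <;> linarith
  slope x a1 a2 x0 x1 p0 p1 q0 q1 i1 i2 := by
    lift x to ℕ using x0
    lift a1 to ℕ using p0
    lift a2 to ℕ using q0
    have e := allB_spec (allB_spec hp a1 (by omega)) a2 (by omega)
    rw [Nat.ble_eq_true_of_le (by omega : a1 ≤ a2 + 1),
      Nat.ble_eq_true_of_le (by omega : a2 ≤ a1 + 1)] at e
    simp only [Bool.and_self, Bool.not_true, Bool.false_or, Bool.and_eq_true] at e
    have e2 := allB_spec e.1 x (by omega)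
    simp only [Bool.and_eq_true, Nat.ble_eq] at e2
    rw [T0_eq' h x a1 a2 (by omega)]
    omega

def escB (p n k1 k2 k3 : ℕ) : Bool :=
  Nat.blt (n + (k1 + 2 * k2) * k3) p || Nat.blt (p + (2 * k1 + k2) * k3) n ||
    Nat.blt (2 * n + (5 * (k1 + k2 + k3) + 8)) (2 * p) ||
    Nat.blt (2 * p + (5 * (k1 + k2 + k3) + 8)) (2 * n)

lemma esc_of (p n k1 k2 k3 : ℕ) (h : escB p n k1 k2 k3 = true) :
    Esc ((p : ℤ) - n) k1 k2 k3 := by
  simp only [escB, Bool.or_eq_true, Nat.blt_eq] at h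
  unfold Esc
  rcases h with ((h | h) | h) | h <;> zify at h
  · left; linarith
  · right; left; linarith
  · right; right; left; linarith
  · right; right; right; linarith

def finB (p n ap an k : ℕ) : Bool :=
  (Nat.ble (an + 5) ap && Nat.blt (2 * (n + 4 * an) + (5 * (k + 8) + 8)) (2 * (p + 4 * ap))) ||
  (Nat.ble (ap + 5) an && Nat.blt (2 * (p + 4 * ap) + (5 * (k + 8) + 8)) (2 * (n + 4 * an)))

lemma fin_of (p n ap an k : ℕ) (h : finB p n ap an k = true) :
    Fin2 ((p : ℤ) - n) ((ap : ℤ) - an) k := by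
  simp only [finB, Bool.or_eq_true, Bool.and_eq_true, Nat.blt_eq, Nat.ble_eq] at h
  unfold Fin2
  omega

def e0B (F : ℕ → ℕ → ℕ) (x y a : ℕ) : Bool :=
  escB (pos F x a a y (2 * a)) (neg F x a a y (2 * a)) (cn x a) (cn (x + a) a) (cn y (2 * a))

def e1B (F : ℕ → ℕ → ℕ) (x y a : ℕ) : Bool :=
  escB (pos F x a a y (2 * a) + 2 * pos F x a a 0 11) (neg F x a a y (2 * a) + 2 * neg F x a a 0 11)
    (cn x a + 1) (cn (x + a) a + 1) (cn y (2 * a) + 2)

def e2B (F : ℕ → ℕ → ℕ) (x y a : ℕ) : Bool :=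
  finB (pos F x a a y (2 * a)) (neg F x a a y (2 * a)) (pos F x a a 0 11) (neg F x a a 0 11)
    (cn x a + cn (x + a) a + cn y (2 * a))

noncomputable def chkMain (F0 F1 F2 : ℕ → ℕ → ℕ) : Bool :=
  allB 10 fun a => allB 11 fun x => allB 11 fun y =>
    (e0B F0 x y (a + 1) || e0B F1 x y (a + 1) || e0B F2 x y (a + 1)) &&
    (e1B F0 x y (a + 1) || e1B F1 x y (a + 1) || e1B F2 x y (a + 1)) &&
    (e2B F0 x y (a + 1) || e2B F1 x y (a + 1) || e2B F2 x y (a + 1))

lemma main_of_chk {F : Fin 3 → ℕ → ℕ → ℕ} (h : ∀ j, chkTab (F j) = true)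
    (hm : chkMain (F 0) (F 1) (F 2) = true) : MainOK fun j => Ph (F j) := by
  intro x y a x0 x1 y0 y1 a0 a1
  lift x to ℕ using x0
  lift y to ℕ using y0
  lift a to ℕ using (by omega)
  have e := allB_spec (allB_spec (allB_spec hm (a - 1) (by omega)) x (by omega)) y (by omega)
  rw [show a - 1 + 1 = a by omega] at e
  simp only [Bool.and_eq_true, Bool.or_eq_true] at e
  obtain ⟨⟨e0, e1⟩, e2⟩ := e
  have t1 : ∀ j, T0 (Ph (F j)) x a a y (2 * a)
      = (pos (F j) x a a y (2 * a) : ℤ) - neg (F j) x a a y (2 * a) := by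
    intro j
    have := T0_eq (h j) x a a y (2 * a) (by omega) (by omega)
    simpa using this
  have t2 : ∀ j, T0 (Ph (F j)) x a a 0 11
      = (pos (F j) x a a 0 11 : ℤ) - neg (F j) x a a 0 11 := fun j =>
    T0_eq' (h j) x a a (by omega)
  have c3 : up ((y : ℤ) + 2 * a) - up y = cn y (2 * a) := by
    have := cn_eq y (2 * a)
    simpa using this
  simp only [t1, t2, cn_eq, cn_eq2, c3]
  refine ⟨?_, ?_, ?_⟩
  · have k : ∀ j, e0B (F j) x y a = true → Esc ((pos (F j) x a a y (2 * a) : ℤ)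
        - neg (F j) x a a y (2 * a)) (cn x a) (cn (x + a) a) (cn y (2 * a)) :=
      fun j hj => esc_of _ _ _ _ _ hj
    rcases e0 with (e | e) | e
    exacts [⟨0, k 0 e⟩, ⟨1, k 1 e⟩, ⟨2, k 2 e⟩]
  · have k : ∀ j, e1B (F j) x y a = true → Esc ((pos (F j) x a a y (2 * a) : ℤ)
        - neg (F j) x a a y (2 * a) + 2 * ((pos (F j) x a a 0 11 : ℤ) - neg (F j) x a a 0 11))
        (cn x a + 1) (cn (x + a) a + 1) (cn y (2 * a) + 2) := by
      intro j hj
      have := esc_of _ _ _ _ _ hj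
      push_cast at this
      convert this using 1
      ring
    rcases e1 with (e | e) | e
    exacts [⟨0, k 0 e⟩, ⟨1, k 1 e⟩, ⟨2, k 2 e⟩]
  · have k : ∀ j, e2B (F j) x y a = true → Fin2 ((pos (F j) x a a y (2 * a) : ℤ)
        - neg (F j) x a a y (2 * a)) ((pos (F j) x a a 0 11 : ℤ) - neg (F j) x a a 0 11)
        ((cn x a : ℤ) + cn (x + a) a + cn y (2 * a)) := by
      intro j hj
      have := fin_of _ _ _ _ _ hj
      push_cast at this
      exact this
    rcases e2 with (e | e) | e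
    exacts [⟨0, k 0 e⟩, ⟨1, k 1 e⟩, ⟨2, k 2 e⟩]

theorem free_of_chk {F : Fin 3 → ℕ → ℕ → ℕ} {t : ℕ → ℕ → Fin 3}
    (h : ∀ j, chkTab (F j) = true) (hd : ∀ j, chkDif (F j) t j = true)
    (hp : ∀ j, chkPsi (F j) = true) (hm : chkMain (F 0) (F 1) (F 2) = true)
    (c : ℤ → ℤ → Fin 3)
    (H1 : ∀ u v : ℤ, ¬ ((11 : ℤ) ∣ u ∧ (11 : ℤ) ∣ v) → c u v = t (u % 11).toNat (v % 11).toNat)
    (H2 : ∀ u v : ℤ, c (11 * u) (11 * v) = c u v) (a x y : ℤ) (ha : 1 ≤ a) :
    ∃ j, TT (fun u v => g (c u v) j) x a a y (2 * a) ≠ 0 :=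
  main_ne (fun j u v => g (c u v) j) (fun j => Ph (F j))
    (fun j => toe_of_chk (h j) (hd j) c H1 H2) (fun j => psi_of_chk (h j) (hp j))
    (main_of_chk h hm) (a.toNat + 1) a x y (by push_cast; omega) ha

end Pool.Agent.H358Z.Neck
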