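import Pool.Agent.H358Z.NeckC

/-!
Two colours do not suffice, and the passage from a cut of a square to adjacent rectangles.
-/

namespace Pool.Agent.H358Z.Neck

open Finset

/-- a boolean as an integer -/
def iB (b : Bool) : ℤ := cond b 1 0

lemma par0 : ∀ a b c d : Bool, iB a + iB b ≠ iB c + iB d → iB a + iB c ≠ iB b + iB d →
    d = !(xor (xor a b) c) := by decide

lemma key (a00 a10 a20 a30 a40 a01 a11 a21 a31 a41 a02 a12 a22 a32 a42 a03 a13 a23 a33 a43 : Bool)
    (h11 : a11 = !(xor (xor a00 a01) a10))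
    (h21 : a21 = !(xor (xor a10 a11) a20))
    (h31 : a31 = !(xor (xor a20 a21) a30))
    (h41 : a41 = !(xor (xor a30 a31) a40))
    (h12 : a12 = !(xor (xor a01 a02) a11))
    (h22 : a22 = !(xor (xor a11 a12) a21))
    (h32 : a32 = !(xor (xor a21 a22) a31))
    (h42 : a42 = !(xor (xor a31 a32) a41))
    (h13 : a13 = !(xor (xor a02 a03) a12))
    (h23 : a23 = !(xor (xor a12 a13) a22))
    (h33 : a33 = !(xor (xor a22 a23) a32))
    (h43 : a43 = !(xor (xor a32 a33) a42))
    (l0 : (iB a00 + iB a01 + iB a02 + iB a03) + (iB a10 + iB a11 + iB a12 + iB a13) ≠ (iB a20 + iB a21 + iB a22 + iB a23) + (iB a30 + iB a31 + iB a32 + iB a33))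
    (l1 : (iB a10 + iB a11 + iB a12 + iB a13) + (iB a20 + iB a21 + iB a22 + iB a23) ≠ (iB a30 + iB a31 + iB a32 + iB a33) + (iB a40 + iB a41 + iB a42 + iB a43))
    (t0 : (iB a00 + iB a01) + (iB a10 + iB a11) + (iB a20 + iB a21) + (iB a30 + iB a31) ≠ (iB a02 + iB a03) + (iB a12 + iB a13) + (iB a22 + iB a23) + (iB a32 + iB a33))
    (t1 : (iB a10 + iB a11) + (iB a20 + iB a21) + (iB a30 + iB a31) + (iB a40 + iB a41) ≠ (iB a12 + iB a13) + (iB a22 + iB a23) + (iB a32 + iB a33) + (iB a42 + iB a43)) :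
    a40 = a00 := by
  subst h11 h21 h31 h41 h12 h22 h32 h42 h13 h23 h33 h43
  revert l0 l1 t0 t1
  revert a00 a10 a20 a30 a40 a01 a02 a03
  decide

lemma sI_succ (h : ℤ → ℤ) (a n : ℤ) (hn : a ≤ n) :
    ∑ u ∈ Ico a (n + 1), h u = ∑ u ∈ Ico a n, h u + h n := by
  have e : Ico a (n + 1) = insert n (Ico a n) := by
    ext u
    simp only [mem_Ico, mem_insert]
    omega
  rw [e, sum_insert (by simp), add_comm]

lemma sI1 (h : ℤ → ℤ) (x : ℤ) : ∑ u ∈ Ico x (x + 1), h u = h x := by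
  rw [sI_succ h x x le_rfl]
  simp

lemma sI2 (h : ℤ → ℤ) (x : ℤ) : ∑ u ∈ Ico x (x + 2), h u = h x + h (x + 1) := by
  rw [show x + 2 = x + 1 + 1 by ring, sI_succ h x _ (by omega), sI1]

lemma sI4 (h : ℤ → ℤ) (x : ℤ) :
    ∑ u ∈ Ico x (x + 4), h u = h x + h (x + 1) + h (x + 2) + h (x + 3) := by
  rw [show x + 4 = x + 3 + 1 by ring, sI_succ h x _ (by omega),
    show x + 3 = x + 2 + 1 by ring, sI_succ h x _ (by omega), sI2]

theorem two_fail (b : ℤ → ℤ → Bool)
    (h1 : ∀ a x y : ℤ, 1 ≤ a → TT (fun u v => iB (b u v)) x a a y (2 * a) ≠ 0)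
    (h2 : ∀ a x y : ℤ, 1 ≤ a → TT (fun u v => iB (b v u)) x a a y (2 * a) ≠ 0) : False := by
  have par : ∀ x y, b (x + 1) (y + 1) = !(xor (xor (b x y) (b x (y + 1))) (b (x + 1) y)) := by
    intro x y
    have e1 := h1 1 x y le_rfl
    have e2 := h2 1 y x le_rfl
    simp only [TT, S, mul_one, sI1, sI2] at e1 e2
    exact par0 _ _ _ _ (fun e => e1 (by linarith)) (fun e => e2 (by linarith))
  have per : ∀ x y, b (x + 4) y = b x y := by
    intro x y
    have e1 := h1 2 x y (by norm_num)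
    have e2 := h1 2 (x + 1) y (by norm_num)
    have e3 := h2 2 y x (by norm_num)
    have e4 := h2 2 y (x + 1) (by norm_num)
    simp only [TT, S, Int.reduceMul, sI2, sI4] at e1 e2 e3 e4
    simp only [add_assoc, Int.reduceAdd] at e1 e2 e3 e4
    refine key (b x y) (b (x + 1) y) (b (x + 2) y) (b (x + 3) y) (b (x + 4) y) (b x (y + 1)) (b (x + 1) (y + 1)) (b (x + 2) (y + 1)) (b (x + 3) (y + 1)) (b (x + 4) (y + 1)) (b x (y + 2)) (b (x + 1) (y + 2)) (b (x + 2) (y + 2)) (b (x + 3) (y + 2)) (b (x + 4) (y + 2)) (b x (y + 3)) (b (x + 1) (y + 3)) (b (x + 2) (y + 3)) (b (x + 3) (y + 3)) (b (x + 4) (y + 3))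
      ?_ ?_ ?_ ?_ ?_ ?_ ?_ ?_ ?_ ?_ ?_ ?_ (fun e => e1 (by linarith)) (fun e => e2 (by linarith))
      (fun e => e3 (by linarith)) (fun e => e4 (by linarith))
    · have := par x y
      simpa only [add_assoc, Int.reduceAdd] using this
    · have := par (x + 1) y
      simpa only [add_assoc, Int.reduceAdd] using this
    · have := par (x + 2) y
      simpa only [add_assoc, Int.reduceAdd] using this
    · have := par (x + 3) y
      simpa only [add_assoc, Int.reduceAdd] using this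
    · have := par x (y + 1)
      simpa only [add_assoc, Int.reduceAdd] using this
    · have := par (x + 1) (y + 1)
      simpa only [add_assoc, Int.reduceAdd] using this
    · have := par (x + 2) (y + 1)
      simpa only [add_assoc, Int.reduceAdd] using this
    · have := par (x + 3) (y + 1)
      simpa only [add_assoc, Int.reduceAdd] using this
    · have := par x (y + 2)
      simpa only [add_assoc, Int.reduceAdd] using this
    · have := par (x + 1) (y + 2)
      simpa only [add_assoc, Int.reduceAdd] using this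
    · have := par (x + 2) (y + 2)
      simpa only [add_assoc, Int.reduceAdd] using this
    · have := par (x + 3) (y + 2)
      simpa only [add_assoc, Int.reduceAdd] using this
  have e := h1 4 0 0 (by norm_num)
  apply e
  simp only [TT, S, sI4]
  have p0 := per 0
  have p1 := per 1
  have p2 := per 2
  have p3 := per 3
  norm_num at p0 p1 p2 p3 ⊢
  simp only [p0, p1, p2, p3]
  ring

lemma cut_sum (H : ℤ → ℤ) (x a1 a2 M : ℤ) (h1 : 0 ≤ a1) (h2 : 0 ≤ a2)
    (hM : ∀ u, x ≤ u → u < x + a1 + a2 → (u ≤ M ↔ u < x + a1)) :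
    ∑ u ∈ Ico x (x + (a1 + a2)), (if u ≤ M then H u else -H u)
      = ∑ u ∈ Ico x (x + a1), H u - ∑ u ∈ Ico (x + a1) (x + a1 + a2), H u := by
  rw [sum_ite, sum_neg_distrib, sub_eq_add_neg]
  congr 2
  · ext u
    simp only [mem_filter, mem_Ico]
    have := hM u
    omega
  · congr 1
    ext u
    simp only [mem_filter, mem_Ico]
    have := hM u
    omega

lemma cut_TT (f : ℤ → ℤ → ℤ) (x a1 a2 y b M : ℤ) (h1 : 0 ≤ a1) (h2 : 0 ≤ a2)
    (hM : ∀ u, x ≤ u → u < x + a1 + a2 → (u ≤ M ↔ u < x + a1)) :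
    ∑ u ∈ Ico x (x + (a1 + a2)), ∑ v ∈ Ico y (y + b), (if u ≤ M then f u v else -f u v)
      = TT f x a1 a2 y b := by
  unfold TT S
  rw [← cut_sum (fun u => ∑ v ∈ Ico y (y + b), f u v) x a1 a2 M h1 h2 hM]
  refine sum_congr rfl fun u _ => ?_
  split_ifs
  · rfl
  · rw [sum_neg_distrib]

lemma TT_one (x a1 a2 y b : ℤ) (h1 : 0 ≤ a1) (h2 : 0 ≤ a2) (hb : 0 ≤ b) :
    TT (fun _ _ => 1) x a1 a2 y b = (a1 - a2) * b := by
  simp only [TT, S, sum_const, Int.card_Ico, add_sub_cancel_left, nsmul_eq_mul]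
  rw [Int.toNat_of_nonneg h1, Int.toNat_of_nonneg h2, Int.toNat_of_nonneg hb]
  ring

lemma sum_sq (ψ : (Fin 2 → ℤ) → ℤ) (a : Fin 2 → ℤ) (n : ℕ) :
    ∑ p ∈ Fintype.piFinset (fun i => Icc (a i + 1) (a i + n)), ψ p
      = ∑ u ∈ Ico (a 0 + 1) (a 0 + 1 + n), ∑ v ∈ Ico (a 1 + 1) (a 1 + 1 + n), ψ ![u, v] := by
  rw [← sum_product']
  refine sum_nbij' (fun p => (p 0, p 1)) (fun z => ![z.1, z.2]) ?_ ?_ ?_ ?_ ?_
  · intro p hp
    simp only [Fintype.mem_piFinset, mem_Icc, Fin.forall_fin_two, mem_product, mem_Ico] at hp ⊢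
    omega
  · intro z hz
    simp only [Fintype.mem_piFinset, mem_Icc, Fin.forall_fin_two, mem_product, mem_Ico,
      Matrix.cons_val_zero, Matrix.cons_val_one] at hz ⊢
    omega
  · intro p _
    ext i
    fin_cases i <;> rfl
  · intro z _
    rfl
  · intro p _
    congr 1
    ext i
    fin_cases i <;> rfl

end Pool.Agent.H358Z.Neck
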