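import Mathlib
import Pool.Agent.Chud.PA
import Pool.Agent.Chud.PB
import Pool.Agent.Chud.PBZ

/-!
Plane curves and points on the cuspidal cubic `y z² = x³`.
-/

set_option autoImplicit false

namespace Pool.Agent.H358Z.Neg

open MvPolynomial Pool.Agent.Chud

variable {k : Type*} [Field k]

/-- Pull-back of vanishing orders along a polynomial map. -/
theorem pull_mem {σ τ : Type*} (g : σ → MvPolynomial τ k) (v : τ → k) (w : σ → k)
    (h : ∀ i, eval v (g i) = w i) {F : MvPolynomial σ k} {m : ℕ} (hF : F ∈ mI w ^ m) :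
    aeval g F ∈ mI v ^ m := by
  have h1 : (mI w).map (aeval g : MvPolynomial σ k →ₐ[k] MvPolynomial τ k) ≤ mI v := by
    rw [Ideal.map_le_iff_le_comap]
    intro G hG
    have h2 : eval w G = 0 := hG
    have h3 : ((aeval v : MvPolynomial τ k →ₐ[k] k)).comp (aeval g) = aeval w := by
      apply MvPolynomial.algHom_ext
      intro i
      simp [h i]
    have h4 := DFunLike.congr_fun h3 G
    show eval v (aeval g G) = 0
    simpa [h2] using h4
  have h5 := Ideal.mem_map_of_mem (aeval g : MvPolynomial σ k →ₐ[k] MvPolynomial τ k) hF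
  rw [Ideal.map_pow] at h5
  exact Ideal.pow_right_mono h1 m h5

theorem deg_of_mem {F : MvPolynomial (Fin 3) k} {n : ℕ} (hF : F.IsHomogeneous n)
    {s : Fin 3 →₀ ℕ} (hs : s ∈ F.support) : s 0 + s 1 + s 2 = n := by
  have := hF (mem_support_iff.1 hs)
  rw [Finsupp.weight_apply, Finsupp.sum_fintype _ _ (by simp)] at this
  simpa [Fin.sum_univ_three] using this

/-- diagonal substitution -/
noncomputable def diag (a : Fin 3 → k) : MvPolynomial (Fin 3) k →ₐ[k] MvPolynomial (Fin 3) k :=
  aeval (fun i => C (a i) * X i)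

theorem diag_monomial (a : Fin 3 → k) (s : Fin 3 →₀ ℕ) (c : k) :
    diag a (monomial s c) = monomial s (a 0 ^ s 0 * a 1 ^ s 1 * a 2 ^ s 2 * c) := by
  rw [diag, aeval_monomial, Finsupp.prod_fintype _ _ (by simp), monomial_eq,
    Finsupp.prod_fintype _ _ (by simp)]
  simp only [Fin.prod_univ_three, algebraMap_eq, map_mul, map_pow, mul_pow]
  ring

theorem coeff_diag (a : Fin 3 → k) (F : MvPolynomial (Fin 3) k) (s : Fin 3 →₀ ℕ) :
    coeff s (diag a F) = a 0 ^ s 0 * a 1 ^ s 1 * a 2 ^ s 2 * coeff s F := by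
  classical
  induction F using MvPolynomial.induction_on' with
  | monomial u c =>
    rw [diag_monomial, coeff_monomial, coeff_monomial]
    split_ifs with h
    · subst h; rfl
    · simp
  | add p q hp hq => rw [map_add, coeff_add, hp, hq, coeff_add]; ring

theorem diag_homog (a : Fin 3 → k) {F : MvPolynomial (Fin 3) k} {n : ℕ} (hF : F.IsHomogeneous n) :
    (diag a F).IsHomogeneous n := by
  intro s hs
  rw [coeff_diag] at hs
  exact hF (right_ne_zero_of_mul hs)

theorem diag_const (c : k) {F : MvPolynomial (Fin 3) k} {n : ℕ} (hF : F.IsHomogeneous n) :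
    diag (fun _ => c) F = C (c ^ n) * F := by
  ext s
  rw [coeff_diag, coeff_C_mul]
  by_cases hs : s ∈ F.support
  · rw [← deg_of_mem hF hs, pow_add, pow_add]
  · rw [notMem_support_iff.1 hs]; simp

theorem diag_mem (a v : Fin 3 → k) {F : MvPolynomial (Fin 3) k} {m : ℕ}
    (hF : F ∈ mI (fun i => a i * v i) ^ m) : diag a F ∈ mI v ^ m :=
  pull_mem _ v _ (fun i => by simp) hF

theorem mem_of_smul (c : k) (hc : c ≠ 0) (v : Fin 3 → k) {F : MvPolynomial (Fin 3) k} {n m : ℕ}
    (hF : F.IsHomogeneous n) (h : F ∈ mI (c • v) ^ m) : F ∈ mI v ^ m := by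
  have h1 := diag_mem (fun _ => c) v (F := F) (m := m) h
  rw [diag_const c hF] at h1
  have h2 := Ideal.mul_mem_left _ (C (c ^ n)⁻¹) h1
  rwa [← mul_assoc, ← C_mul, inv_mul_cancel₀ (pow_ne_zero _ hc), C_1, one_mul] at h2

theorem mem_rep_iff (v : Fin 3 → k) (hv : v ≠ 0) {F : MvPolynomial (Fin 3) k} {n : ℕ} (m : ℕ)
    (hF : F.IsHomogeneous n) :
    F ∈ mI (Projectivization.mk k v hv).rep ^ m ↔ F ∈ mI v ^ m := by
  obtain ⟨a, ha⟩ := Projectivization.exists_smul_eq_mk_rep k v hv
  rw [← ha]
  constructor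
  · exact mem_of_smul (a : k) a.ne_zero v hF
  · intro h
    apply mem_of_smul ((a⁻¹ : kˣ) : k) (a⁻¹).ne_zero _ hF
    have : ((a⁻¹ : kˣ) : k) • (a • v) = v := by
      rw [Units.smul_def, smul_smul]; simp
    rwa [this]

theorem mu_rep (v : Fin 3 → k) (hv : v ≠ 0) {F : MvPolynomial (Fin 3) k} {n : ℕ}
    (hF : F.IsHomogeneous n) (hF0 : F ≠ 0) :
    mu (Projectivization.mk k v hv).rep F = mu v F := by
  apply le_antisymm
  · rw [← mem_mI_pow_iff v hF0, ← mem_rep_iff v hv _ hF, mem_mI_pow_iff _ hF0]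
  · rw [← mem_mI_pow_iff _ hF0, mem_rep_iff v hv _ hF, mem_mI_pow_iff _ hF0]

/-! ### The cuspidal cubic -/

/-- the point with parameter `t` -/
def pt (t : k) : Fin 3 → k := ![t, t ^ 3, 1]

theorem pt_ne (t : k) : pt t ≠ 0 := by
  intro h
  have := congrFun h 2
  simp [pt] at this

/-- the cubic -/
noncomputable def cub : MvPolynomial (Fin 3) k := X 2 ^ 2 * X 1 + - X 0 ^ 3

theorem cub_homog : (cub : MvPolynomial (Fin 3) k).IsHomogeneous 3 := by
  unfold cub
  refine IsHomogeneous.add ?_ (IsHomogeneous.neg ?_)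
  · exact ((isHomogeneous_X k 2).pow 2).mul (isHomogeneous_X k 1)
  · exact (isHomogeneous_X k 0).pow 3

theorem cub_irred : Irreducible (cub : MvPolynomial (Fin 3) k) := by
  classical
  apply irreducible_mul_X_add
  · exact pow_ne_zero _ (X_ne_zero _)
  · intro h
    have := vars_pow _ _ h
    simp at this
  · intro h
    rw [vars_neg] at h
    have := vars_pow _ _ h
    simp at this
  · apply IsRelPrime.neg_right
    apply IsRelPrime.pow
    rw [(X_prime (R := k) (i := (2 : Fin 3))).irreducible.isRelPrime_iff_not_dvd]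
    rw [X_dvd_X]
    decide

theorem eval_cub (t : k) : eval (pt t) cub = 0 := by
  simp [cub, pt]

theorem mu_cub (t : k) : mu (pt t) cub = 1 := by
  have h0 : (cub : MvPolynomial (Fin 3) k) ≠ 0 := cub_irred.ne_zero
  apply le_antisymm
  · by_contra h
    have h2 : (cub : MvPolynomial (Fin 3) k) ∈ mI (pt t) ^ (1 + 1) := by
      rw [mem_mI_pow_iff _ h0]; omega
    have h3 := deriv_mem (pt t) (pderiv 1) 1 cub h2
    rw [pow_one] at h3
    have h4 : eval (pt t) (pderiv 1 cub) = 0 := h3
    simp [cub, pt, pderiv_X] at h4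
  · exact (mu_pos_iff _ h0).2 (eval_cub t)

/-- the parametrisation -/
noncomputable def par : MvPolynomial (Fin 3) k →ₐ[k] Polynomial k :=
  aeval ![Polynomial.X, Polynomial.X ^ 3, 1]

theorem par_monomial (s : Fin 3 →₀ ℕ) (c : k) :
    par (monomial s c) = Polynomial.monomial (s 0 + 3 * s 1) c := by
  rw [par, aeval_monomial, Finsupp.prod_fintype _ _ (by simp)]
  simp only [Fin.prod_univ_three, Matrix.cons_val_zero, Matrix.cons_val_one, Matrix.cons_val,
    one_pow, mul_one]
  rw [← pow_mul, ← pow_add, ← Polynomial.C_mul_X_pow_eq_monomial]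
  rfl

theorem coeff_par {F : MvPolynomial (Fin 3) k} {e : ℕ} (hF : F.IsHomogeneous e) (j : ℕ)
    (hj : 3 * e < j ∨ j + 1 = 3 * e) : (par F).coeff j = 0 := by
  rw [F.as_sum, map_sum, Polynomial.finsetSum_coeff]
  apply Finset.sum_eq_zero
  intro s hs
  have := deg_of_mem hF hs
  rw [par_monomial, Polynomial.coeff_monomial, if_neg]
  omega

theorem eval_par (t : k) (F : MvPolynomial (Fin 3) k) : (par F).eval t = eval (pt t) F := by
  have h : (Polynomial.aeval t : Polynomial k →ₐ[k] k).comp par = aeval (pt t) := by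
    apply MvPolynomial.algHom_ext
    intro i
    fin_cases i <;> simp [par, pt]
  have := DFunLike.congr_fun h F
  simpa [Polynomial.coe_aeval_eq_eval] using this

theorem dvd_par (t : k) {F : MvPolynomial (Fin 3) k} {m : ℕ} (hF : F ∈ mI (pt t) ^ m) :
    (Polynomial.X - Polynomial.C t) ^ m ∣ par F := by
  have h1 : (mI (pt t)).map (par : MvPolynomial (Fin 3) k →ₐ[k] Polynomial k) ≤
      Ideal.span {Polynomial.X - Polynomial.C t} := by
    rw [Ideal.map_le_iff_le_comap]
    intro G hG
    have h2 : eval (pt t) G = 0 := hG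
    rw [Ideal.mem_comap, Ideal.mem_span_singleton, Polynomial.dvd_iff_isRoot, Polynomial.IsRoot,
      eval_par, h2]
  have h5 := Ideal.mem_map_of_mem (par : MvPolynomial (Fin 3) k →ₐ[k] Polynomial k) hF
  rw [Ideal.map_pow] at h5
  have h6 := Ideal.pow_right_mono h1 m h5
  rwa [Ideal.span_singleton_pow, Ideal.mem_span_singleton] at h6

theorem mk_pt_inj {t t' : k} (h : Projectivization.mk k (pt t) (pt_ne t) =
    Projectivization.mk k (pt t') (pt_ne t')) : t = t' := by
  rw [Projectivization.mk_eq_mk_iff] at h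
  obtain ⟨a, ha⟩ := h
  have h2 := congrFun ha 2
  have h0 := congrFun ha 0
  simp [pt, Units.smul_def] at h2 h0
  rw [h2] at h0
  simpa using h0.symm

/-- An irreducible form which vanishes on the cubic is the cubic. -/
theorem assoc_cub [CharZero k] {G : MvPolynomial (Fin 3) k} {e : ℕ} (hG : G.IsHomogeneous e)
    (hirr : Irreducible G) (h0 : par G = 0) : Associated G cub := by
  classical
  apply hirr.associated_of_dvd cub_irred
  by_contra hnd
  have hrel : IsRelPrime G cub := hirr.isRelPrime_iff_not_dvd.2 hnd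
  let f : ℕ → PP k 2 := fun n => Projectivization.mk k (pt (n : k)) (pt_ne _)
  have hf : Function.Injective f := fun a b hab => Nat.cast_injective (mk_pt_inj hab)
  have hb := bezout hG cub_homog hirr.ne_zero cub_irred.ne_zero hrel
    ((Finset.range (e * 3 + 1)).image f) (fun _ => 1) (fun _ => 1) ?_ ?_
  · simp [Finset.card_image_of_injective _ hf] at hb
  · intro p hp
    obtain ⟨n, -, rfl⟩ := Finset.mem_image.1 hp
    rw [mem_rep_iff _ _ _ hG, pow_one]
    show eval _ G = 0
    rw [← eval_par, h0, Polynomial.eval_zero]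
  · intro p hp
    obtain ⟨n, -, rfl⟩ := Finset.mem_image.1 hp
    rw [mem_rep_iff _ _ _ cub_homog, pow_one]
    exact eval_cub _

/-- the nine parameters `1, 4, 9, …, 81` -/
def tt (i : Fin 9) : k := ((i.val + 1 : ℕ) : k) ^ 2

theorem tt_inj [CharZero k] : Function.Injective (tt : Fin 9 → k) := by
  intro i j h
  unfold tt at h
  have h1 : (i.val + 1) ^ 2 = (j.val + 1) ^ 2 := by exact_mod_cast h
  have h2 := Nat.pow_left_injective (by norm_num : (2 : ℕ) ≠ 0) h1
  exact Fin.ext (by omega)

/-- A form of positive degree `e` which does not vanish on the cubic has total multiplicity less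
than `3 e` at the nine points. -/
theorem sum_mu_lt [CharZero k] {G : MvPolynomial (Fin 3) k} {e : ℕ} (hG : G.IsHomogeneous e)
    (he : 1 ≤ e) (h0 : par G ≠ 0) : ∑ i, mu (pt (tt i)) G + 1 ≤ 3 * e := by
  have hG0 : G ≠ 0 := by rintro rfl; simp at h0
  set m : Fin 9 → ℕ := fun i => mu (pt (tt i)) G with hm
  set W : Polynomial k := ∏ i, (Polynomial.X - Polynomial.C (tt i : k)) ^ m i with hW
  have hdvd : W ∣ par G := by
    apply Finset.prod_dvd_of_coprime
    · intro i _ j _ hij
      exact (Polynomial.pairwise_coprime_X_sub_C tt_inj hij).pow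
    · intro i _
      exact dvd_par _ ((mem_mI_pow_iff _ hG0 _).2 le_rfl)
  have hmon : W.Monic := Polynomial.monic_prod_of_monic _ _
    (fun i _ => (Polynomial.monic_X_sub_C _).pow _)
  have hdeg : W.natDegree = ∑ i, m i := by
    rw [hW, Polynomial.natDegree_prod_of_monic _ _ (fun i _ => (Polynomial.monic_X_sub_C _).pow _)]
    simp
  have hP : (par G).natDegree ≤ 3 * e := by
    rw [Polynomial.natDegree_le_iff_coeff_eq_zero]
    intro N hN
    exact coeff_par hG N (Or.inl hN)
  obtain ⟨q, hq⟩ := hdvd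
  have hq0 : q ≠ 0 := by rintro rfl; simp [hq] at h0
  have hadd : (par G).natDegree = W.natDegree + q.natDegree := by
    rw [hq, Polynomial.natDegree_mul hmon.ne_zero hq0]
  by_contra hcon
  have hcon' : ¬ (∑ i, m i + 1 ≤ 3 * e) := hcon
  have hs : ∑ i, m i = 3 * e := by
    rw [hdeg] at hadd
    generalize ∑ i, m i = w at *
    omega
  have hq1 : q.natDegree = 0 := by omega
  obtain ⟨c, rfl⟩ := Polynomial.natDegree_eq_zero.1 hq1
  have hc : c ≠ 0 := by rintro rfl; simp at hq0
  have h1 := coeff_par hG (3 * e - 1) (Or.inr (by omega))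
  rw [hq, Polynomial.coeff_mul_C] at h1
  have h2 : W.nextCoeff = 0 := by
    rw [Polynomial.nextCoeff_of_natDegree_pos (by omega), hdeg, hs]
    exact (mul_eq_zero.1 h1).resolve_right hc
  rw [hW, Polynomial.Monic.nextCoeff_prod _ _ (fun i _ => (Polynomial.monic_X_sub_C _).pow _)] at h2
  simp only [Polynomial.Monic.nextCoeff_pow (Polynomial.monic_X_sub_C _),
    Polynomial.nextCoeff_X_sub_C] at h2
  have h3 : ((∑ i, m i * (i.val + 1) ^ 2 : ℕ) : k) = 0 := by
    rw [← neg_eq_zero, ← h2]
    push_cast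
    rw [← Finset.sum_neg_distrib]
    apply Finset.sum_congr rfl
    intro i _
    simp [tt]
  have h4 : ∑ i, m i * (i.val + 1) ^ 2 = 0 := by exact_mod_cast h3
  have h5 : ∑ i, m i = 0 := by
    apply Finset.sum_eq_zero
    intro i hi
    have := (Finset.sum_eq_zero_iff.1 h4) i hi
    simpa using this
  omega

end Pool.Agent.H358Z.Neg
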