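import Mathlib
import Pool.Agent.H358Z.NegA

/-!
Irreducible curves of negative self-intersection and unbounded degree on the plane blown up at
nine points of the cuspidal cubic.
-/

set_option autoImplicit false

namespace Pool.Agent.H358Z.Neg

open MvPolynomial Pool.Agent.Chud

variable {k : Type*} [Field k]

/-- shear moving `(u, v, 1)` to `(0, 0, 1)` -/
noncomputable def shear (u v : k) : MvPolynomial (Fin 3) k →ₐ[k] MvPolynomial (Fin 3) k :=
  aeval ![X 0 + C u * X 2, X 1 + C v * X 2, X 2]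

theorem shear_neg (u v : k) (F : MvPolynomial (Fin 3) k) :
    shear (-u) (-v) (shear u v F) = F := by
  have : (shear (-u) (-v)).comp (shear u v) = AlgHom.id k (MvPolynomial (Fin 3) k) := by
    apply MvPolynomial.algHom_ext
    intro i
    fin_cases i <;> simp [shear]
  exact DFunLike.congr_fun this F

theorem shear_homog (u v : k) {F : MvPolynomial (Fin 3) k} {n : ℕ} (hF : F.IsHomogeneous n) :
    (shear u v F).IsHomogeneous n := by
  have := hF.aeval (n := 1) ![X 0 + C u * X 2, X 1 + C v * X 2, (X 2 : MvPolynomial (Fin 3) k)] ?_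
  · rw [one_mul] at this
    exact this
  · intro i
    fin_cases i
    · exact (isHomogeneous_X _ _).add (isHomogeneous_C_mul_X _ _)
    · exact (isHomogeneous_X _ _).add (isHomogeneous_C_mul_X _ _)
    · exact isHomogeneous_X _ _

/-- exponent vector -/
noncomputable def ex3 (a b c : ℕ) : Fin 3 →₀ ℕ :=
  Finsupp.single 0 a + Finsupp.single 1 b + Finsupp.single 2 c

theorem ex3_apply (a b c : ℕ) : (ex3 a b c) 0 = a ∧ (ex3 a b c) 1 = b ∧ (ex3 a b c) 2 = c := by
  simp [ex3]

theorem mem_pow_of_coeff (u v : k) {F : MvPolynomial (Fin 3) k} {n a : ℕ} (hF : F.IsHomogeneous n)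
    (h : ∀ i j : ℕ, j ≤ i → i < a → coeff (ex3 j (i - j) (n - i)) (shear u v F) = 0) :
    F ∈ mI ![u, v, 1] ^ a := by
  classical
  have hT := shear_homog u v hF
  rw [← shear_neg u v F, (shear u v F).as_sum, map_sum]
  apply Ideal.sum_mem
  intro s hs
  have hdeg : s 0 + s 1 + s 2 = n := deg_of_mem hT hs
  have hge : a ≤ s 0 + s 1 := by
    by_contra hlt
    push Not at hlt
    have := h (s 0 + s 1) (s 0) (by omega) hlt
    have hs' : ex3 (s 0) (s 0 + s 1 - s 0) (n - (s 0 + s 1)) = s := by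
      ext i
      have := ex3_apply (s 0) (s 0 + s 1 - s 0) (n - (s 0 + s 1))
      fin_cases i
      · exact this.1
      · exact this.2.1.trans (by simp)
      · exact this.2.2.trans (by simp; omega)
    rw [hs'] at this
    exact (mem_support_iff.1 hs) this
  rw [shear, aeval_monomial, Finsupp.prod_fintype _ _ (by simp)]
  simp only [Fin.prod_univ_three, Matrix.cons_val_zero, Matrix.cons_val_one, Matrix.cons_val]
  apply Ideal.mul_mem_left
  apply Ideal.mul_mem_right
  apply Ideal.pow_le_pow_right hge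
  rw [pow_add]
  apply Ideal.mul_mem_mul
  · apply Ideal.pow_mem_pow
    show eval _ _ = 0
    simp
  · apply Ideal.pow_mem_pow
    show eval _ _ = 0
    simp

/-- Dimension count. -/
theorem exists_form {ι : Type} [Fintype ι] (u v : ι → k) (m : ι → ℕ) (n : ℕ)
    (h : ∑ i, m i * (m i + 1) < (n + 2) * (n + 1)) :
    ∃ F : MvPolynomial (Fin 3) k, F ≠ 0 ∧ F.IsHomogeneous n ∧ ∀ i, F ∈ mI ![u i, v i, 1] ^ m i := by
  classical
  let Φ : homogeneousSubmodule (Fin 3) k n →ₗ[k] ((Σ i : ι, De (m i)) → k) :=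
    LinearMap.pi fun x => (lcoeff k (ex3 x.2.2.val (x.2.1.val - x.2.2.val) (n - x.2.1.val))) ∘ₗ
      (shear (u x.1) (v x.1)).toLinearMap ∘ₗ (homogeneousSubmodule (Fin 3) k n).subtype
  have h1 : Module.finrank k ((Σ i : ι, De (m i)) → k) <
      Module.finrank k (homogeneousSubmodule (Fin 3) k n) := by
    rw [finrank_forms, Module.finrank_fintype_fun_eq_card, Fintype.card_sigma]
    have h2 : 2 * ∑ i, Fintype.card (De (m i)) = ∑ i, m i * (m i + 1) := by
      rw [Finset.mul_sum]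
      exact Finset.sum_congr rfl fun i _ => card_De _
    have h3 : 2 * (n + 2).choose 2 = (n + 2) * (n + 1) := by
      rw [Nat.choose_two_right]
      have : 2 ∣ (n + 2) * (n + 1) := by
        rw [mul_comm]; exact (Nat.even_mul_succ_self (n + 1)).two_dvd
      rw [show n + 2 - 1 = n + 1 from rfl, Nat.mul_div_cancel' this]
    omega
  obtain ⟨F, hF, hF0⟩ := (Submodule.ne_bot_iff _).1 (LinearMap.ker_ne_bot_of_finrank_lt (f := Φ) h1)
  refine ⟨F.1, fun h0 => hF0 (Subtype.ext h0), F.2, fun i => ?_⟩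
  apply mem_pow_of_coeff _ _ F.2
  intro a b hab ha
  exact congrFun (LinearMap.mem_ker.1 hF) ⟨i, ⟨⟨a, ha⟩, ⟨b, by simp; omega⟩⟩⟩

theorem mu_unit {σ : Type*} [Finite σ] (v : σ → k) {F : MvPolynomial σ k} (hF : IsUnit F) :
    mu v F = 0 := by
  by_contra h
  have h1 := (mu_pos_iff v hF.ne_zero).1 (Nat.pos_of_ne_zero h)
  exact (hF.map (eval v)).ne_zero h1

theorem mu_assoc {σ : Type*} [Finite σ] (v : σ → k) {F G : MvPolynomial σ k} (hF : F ≠ 0)
    (h : Associated F G) : mu v F = mu v G := by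
  obtain ⟨u, rfl⟩ := h
  rw [mu_mul v hF u.ne_zero, mu_unit v u.isUnit, add_zero]

theorem deg_unit {σ : Type*} {F : MvPolynomial σ k} (hF : IsUnit F) : F.totalDegree = 0 := by
  obtain ⟨u, rfl⟩ := hF
  have h := totalDegree_mul_of_isDomain (f := (u : MvPolynomial σ k)) (g := ((u⁻¹ : _ˣ) : MvPolynomial σ k))
    u.ne_zero (u⁻¹).ne_zero
  rw [Units.mul_inv, totalDegree_one] at h
  omega

theorem deg_pos {σ : Type*} {F : MvPolynomial σ k} (hF : Irreducible F) : 1 ≤ F.totalDegree := by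
  by_contra h
  have h0 : F.totalDegree = 0 := by omega
  rw [totalDegree_eq_zero_iff_eq_C] at h0
  apply hF.not_isUnit
  rw [h0]
  apply IsUnit.map C
  rw [isUnit_iff_ne_zero]
  intro h1
  apply hF.ne_zero
  rw [h0, h1, C_0]

/-- The structure of the forms with total multiplicity at least `3 d - 1`. -/
theorem structure_thm [CharZero k] (F : MvPolynomial (Fin 3) k) :
    F ≠ 0 → F.IsHomogeneous F.totalDegree →
      (∑ i, mu (pt (tt i)) F ≤ 3 * F.totalDegree) ∧
      (3 * F.totalDegree ≤ ∑ i, mu (pt (tt i)) F + 1 → ∃ a : ℕ,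
        (F.totalDegree = 3 * a ∧ ∀ i, mu (pt (tt i)) F = a) ∨
        ∃ (G : MvPolynomial (Fin 3) k) (e : ℕ), Irreducible G ∧ G.IsHomogeneous e ∧
          F.totalDegree = 3 * a + e ∧ (∀ i, mu (pt (tt i)) F = a + mu (pt (tt i)) G) ∧
          ∑ i, mu (pt (tt i)) G + 1 ≤ 3 * e) := by
  induction F using UniqueFactorizationMonoid.induction_on_prime with
  | h₁ => intro h; exact absurd rfl h
  | h₂ x hx =>
    intro _ _
    have h1 : ∀ i, mu (pt (tt i)) x = 0 := fun i => mu_unit _ hx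
    refine ⟨by simp [h1], fun _ => ⟨0, Or.inl ⟨by simp [deg_unit hx], h1⟩⟩⟩
  | h₃ A G hA hG ih =>
    intro h0 hh
    have hGh := homog_of_dvd hh h0 (Dvd.intro _ rfl : G ∣ G * A)
    have hAh := homog_of_dvd hh h0 (Dvd.intro_left _ rfl : A ∣ G * A)
    obtain ⟨ih1, ih2⟩ := ih hA hAh
    have hdeg : (G * A).totalDegree = G.totalDegree + A.totalDegree :=
      totalDegree_mul_of_isDomain hG.ne_zero hA
    have hmu : ∀ i, mu (pt (tt i)) (G * A) = mu (pt (tt i)) G + mu (pt (tt i)) A :=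
      fun i => mu_mul _ hG.ne_zero hA
    have hsum : ∑ i, mu (pt (tt i)) (G * A) =
        ∑ i, mu (pt (tt i)) G + ∑ i, mu (pt (tt i)) A := by
      rw [← Finset.sum_add_distrib]
      exact Finset.sum_congr rfl fun i _ => hmu i
    by_cases hp : par G = 0
    · have has := assoc_cub hGh hG.irreducible hp
      have hm1 : ∀ i, mu (pt (tt i)) G = 1 := fun i => by
        rw [mu_assoc _ hG.ne_zero has, mu_cub]
      have hd3 : G.totalDegree = 3 := by
        obtain ⟨u, hu⟩ := has
        have h2 := totalDegree_mul_of_isDomain hG.ne_zero u.ne_zero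
        rw [hu, cub_homog.totalDegree cub_irred.ne_zero, deg_unit u.isUnit] at h2
        omega
      have hs9 : ∑ i, mu (pt (tt i)) G = 9 := by simp [hm1]
      refine ⟨by omega, fun h => ?_⟩
      obtain ⟨a, ha⟩ := ih2 (by omega)
      refine ⟨a + 1, ?_⟩
      rcases ha with ⟨h1, h2⟩ | ⟨G', e, h1, h2, h3, h4, h5⟩
      · exact Or.inl ⟨by omega, fun i => by rw [hmu, hm1, h2]; omega⟩
      · exact Or.inr ⟨G', e, h1, h2, by omega, fun i => by rw [hmu, hm1, h4]; omega, h5⟩
    · have hlt := sum_mu_lt hGh (deg_pos hG.irreducible) hp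
      refine ⟨by omega, fun h => ?_⟩
      obtain ⟨a, ha⟩ := ih2 (by omega)
      refine ⟨a, ?_⟩
      rcases ha with ⟨h1, h2⟩ | ⟨G', e, h1, h2, h3, h4, h5⟩
      · exact Or.inr ⟨G, G.totalDegree, hG.irreducible, hGh, by omega,
          fun i => by rw [hmu, h2]; omega, hlt⟩
      · exfalso
        have h6 : ∑ i, mu (pt (tt i)) A = 9 * a + ∑ i, mu (pt (tt i)) G' := by
          rw [Finset.sum_congr rfl fun i _ => h4 i, Finset.sum_add_distrib]
          simp
        omega

/-- the multiplicities of the `n`-th class -/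
def mm (n : ℕ) : Fin 9 → ℕ :=
  ![n * n + n, n * n + 3 * n + 2, n * n + 2 * n + 1, n * n + 2 * n + 1, n * n + 2 * n + 1,
    n * n + 2 * n + 1, n * n + 2 * n + 1, n * n + 2 * n + 1, n * n + 2 * n]

/-- Irreducible curves of large degree and negative self-intersection with `-K·C = 1`. -/
theorem exists_neg [CharZero k] (n : ℕ) : ∃ (G : MvPolynomial (Fin 3) k) (e : ℕ),
    Irreducible G ∧ G.IsHomogeneous e ∧ n ≤ e ∧ ∑ i, mu (pt (tt i)) G + 1 = 3 * e ∧
      e ^ 2 < ∑ i, mu (pt (tt i)) G ^ 2 := by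
  obtain ⟨F, hF0, hF, hm⟩ := exists_form (k := k) (fun i => tt i) (fun i => tt i ^ 3) (mm n)
    (3 * (n * n + 2 * n + 1)) (by simp [mm, Fin.sum_univ_succ]; nlinarith)
  have hd := hF.totalDegree hF0
  have hm' : ∀ i, mm n i ≤ mu (pt (tt i)) F := fun i => (mem_mI_pow_iff _ hF0 _).1 (hm i)
  have hs : ∑ i, mm n i + 1 = 3 * (3 * (n * n + 2 * n + 1)) := by
    simp [mm, Fin.sum_univ_succ]; ring
  have hle : ∑ i, mm n i ≤ ∑ i, mu (pt (tt i)) F := Finset.sum_le_sum fun i _ => hm' i
  obtain ⟨h1, h2⟩ := structure_thm F hF0 (hd ▸ hF)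
  rw [hd] at h1 h2
  obtain ⟨a, ha⟩ := h2 (by omega)
  rcases ha with ⟨h3, h4⟩ | ⟨G, e, h3, h4, h5, h6, h7⟩
  · exfalso
    have h8 := hm' 1
    rw [h4] at h8
    simp [mm] at h8
    omega
  · have h8 : ∑ i, mu (pt (tt i)) F = 9 * a + ∑ i, mu (pt (tt i)) G := by
      rw [Finset.sum_congr rfl fun i _ => h6 i, Finset.sum_add_distrib]
      simp
    have h9 : ∑ i, mm n i = ∑ i, mu (pt (tt i)) F := by omega
    have h10 : ∀ i, mm n i = a + mu (pt (tt i)) G := fun i => by
      rw [← h6]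
      exact (Finset.sum_eq_sum_iff_of_le (fun i _ => hm' i)).1 h9 i (Finset.mem_univ _)
    have h11 := mu_le_totalDegree (pt (tt 1)) h3.ne_zero
    rw [h4.totalDegree h3.ne_zero] at h11
    have e0 := h10 0
    have e1 := h10 1
    have e2 := h10 2
    have e3 := h10 3
    have e4 := h10 4
    have e5 := h10 5
    have e6 := h10 6
    have e7 := h10 7
    have e8 := h10 8
    simp [mm] at e0 e1 e2 e3 e4 e5 e6 e7 e8
    refine ⟨G, e, h3, h4, by omega, by omega, ?_⟩
    simp only [Fin.sum_univ_succ, Fin.sum_univ_zero]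
    simp only [Fin.succ_zero_eq_one, Fin.succ_one_eq_two, Fin.reduceSucc]
    obtain ⟨b, hb⟩ : ∃ b, mu (pt (tt 0)) G = b := ⟨_, rfl⟩
    have f1 : mu (pt (tt 1)) G = b + 2 * n + 2 := by omega
    have f2 : mu (pt (tt 2)) G = b + n + 1 := by omega
    have f3 : mu (pt (tt 3)) G = b + n + 1 := by omega
    have f4 : mu (pt (tt 4)) G = b + n + 1 := by omega
    have f5 : mu (pt (tt 5)) G = b + n + 1 := by omega
    have f6 : mu (pt (tt 6)) G = b + n + 1 := by omega
    have f7 : mu (pt (tt 7)) G = b + n + 1 := by omega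
    have f8 : mu (pt (tt 8)) G = b + n := by omega
    have fe : e = 3 * (b + n + 1) := by omega
    have fb : b ≤ n * n + n := by omega
    rw [hb, f1, f2, f3, f4, f5, f6, f7, f8, fe]
    nlinarith

end Pool.Agent.H358Z.Neg
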