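import Mathlib
import Pool.Agent.H358Z.NegB

/-!
Pull-back of the negative curves along the map `(x : y : z) ↦ (x² : y² : z²)`.
-/

set_option autoImplicit false

namespace Pool.Agent.H358Z.Neg

open MvPolynomial Pool.Agent.Chud

variable {k : Type*} [Field k]

theorem diag_diag (a b : Fin 3 → k) (F : MvPolynomial (Fin 3) k) :
    diag a (diag b F) = diag (fun i => a i * b i) F := by
  ext s
  simp only [coeff_diag, mul_pow]
  ring

theorem diag_one (F : MvPolynomial (Fin 3) k) : diag (fun _ => 1) F = F := by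
  ext s
  simp [coeff_diag]

theorem diag_expand (a : Fin 3 → k) (ha : ∀ i, a i * a i = 1) (F : MvPolynomial (Fin 3) k) :
    diag a (expand 2 F) = expand 2 F := by
  have : (diag a).comp (expand 2) = expand 2 := by
    apply MvPolynomial.algHom_ext
    intro i
    simp only [AlgHom.comp_apply, expand_X, map_pow, diag, aeval_X]
    rw [mul_pow, ← C_pow, pow_two, ha, C_1, one_mul]
  exact DFunLike.congr_fun this F

theorem even_of_coeff [CharZero k] {c : k} {n : ℕ} (hc : c ≠ 0) (h : (-1) ^ n * c = c) :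
    2 ∣ n := by
  rcases Nat.even_or_odd n with h1 | h1
  · exact h1.two_dvd
  · exfalso
    rw [h1.neg_one_pow] at h
    apply hc
    linear_combination (-1 / 2 : k) * h

theorem exists_expand [CharZero k] {Q : MvPolynomial (Fin 3) k}
    (h0 : diag ![-1, 1, 1] Q = Q) (h1 : diag ![1, -1, 1] Q = Q) (h2 : diag ![1, 1, -1] Q = Q) :
    ∃ Q0, expand 2 Q0 = Q := by
  classical
  refine ⟨∑ s ∈ Q.support, monomial (s.mapRange (· / 2) (by simp)) (coeff s Q), ?_⟩
  rw [map_sum]
  conv_rhs => rw [Q.as_sum]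
  apply Finset.sum_congr rfl
  intro s hs
  have hc := mem_support_iff.1 hs
  have e0 := congrArg (coeff s) h0
  have e1 := congrArg (coeff s) h1
  have e2 := congrArg (coeff s) h2
  rw [coeff_diag] at e0 e1 e2
  simp only [Matrix.cons_val_zero, Matrix.cons_val_one, Matrix.cons_val, one_pow, mul_one,
    one_mul] at e0 e1 e2
  have d0 := even_of_coeff hc e0
  have d1 := even_of_coeff hc e1
  have d2 := even_of_coeff hc e2
  rw [expand_monomial]
  congr 2
  ext i
  simp only [Finsupp.smul_apply, Finsupp.mapRange_apply, smul_eq_mul]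
  apply Nat.mul_div_cancel'
  fin_cases i
  · exact d0
  · exact d1
  · exact d2

theorem dvd_of_expand [CharZero k] {A B : MvPolynomial (Fin 3) k} (hA : A ≠ 0)
    (h : expand 2 A ∣ expand 2 B) : A ∣ B := by
  obtain ⟨Q, hQ⟩ := h
  have hA' : expand 2 A ≠ 0 := (expand_ne_zero (by norm_num)).2 hA
  have key : ∀ a : Fin 3 → k, (∀ i, a i * a i = 1) → diag a Q = Q := by
    intro a ha
    have h1 := congrArg (diag a) hQ
    rw [map_mul, diag_expand a ha, diag_expand a ha, hQ] at h1
    exact (mul_left_cancel₀ hA' h1).symm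
  obtain ⟨Q0, rfl⟩ := exists_expand (key ![-1, 1, 1] (fun i => by fin_cases i <;> simp))
    (key ![1, -1, 1] (fun i => by fin_cases i <;> simp))
    (key ![1, 1, -1] (fun i => by fin_cases i <;> simp))
  refine ⟨Q0, expand_injective (n := 2) (by norm_num) ?_⟩
  rw [hQ, map_mul]

theorem expand_homog {F : MvPolynomial (Fin 3) k} {n : ℕ} (hF : F.IsHomogeneous n) :
    (expand 2 F).IsHomogeneous (2 * n) :=
  hF.aeval (n := 2) (fun i => X i ^ 2) (fun i => by simpa using (isHomogeneous_X k i).pow 2)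

/-- a sign -/
def sg (b : Bool) : k := if b then -1 else 1

theorem sg_mul (b : Bool) : (sg b : k) * sg b = 1 := by cases b <;> simp [sg]

/-- a sign vector -/
def sv (b : Bool × Bool) : Fin 3 → k := ![sg b.1, sg b.2, 1]

theorem sv_mul (b : Bool × Bool) (i : Fin 3) : (sv b : Fin 3 → k) i * sv b i = 1 := by
  fin_cases i <;> simp [sv, sg_mul]

/-- the thirty-six points `(± a, ± a³, 1)`, `a = 1, …, 9` -/
def qq (x : Fin 9 × Bool × Bool) : Fin 3 → k :=
  fun j => sv x.2 j * pt ((x.1.val + 1 : ℕ) : k) j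

theorem qq_two (x : Fin 9 × Bool × Bool) : (qq x : Fin 3 → k) 2 = 1 := by
  simp [qq, sv, pt]

theorem qq_ne (x : Fin 9 × Bool × Bool) : (qq x : Fin 3 → k) ≠ 0 := by
  intro h
  have := congrFun h 2
  rw [qq_two] at this
  simp at this

theorem mu_diag_le (b : Bool × Bool) (i : Fin 9) {H : MvPolynomial (Fin 3) k} (hH : H ≠ 0) :
    mu (pt ((i.val + 1 : ℕ) : k)) (diag (sv b) H) ≤ mu (qq (i, b)) H := by
  have hinv : diag (sv b) (diag (sv b) H) = H := by
    rw [diag_diag, funext (sv_mul b), diag_one]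
  have h0 : diag (sv b) H ≠ 0 := by
    intro h
    rw [h, map_zero] at hinv
    exact hH hinv.symm
  rw [← mem_mI_pow_iff _ hH, ← hinv]
  apply diag_mem
  have : (fun j => sv b j * qq (i, b) j) = pt ((i.val + 1 : ℕ) : k) := by
    funext j
    simp only [qq]
    rw [← mul_assoc, sv_mul, one_mul]
  rw [this, hinv, mem_mI_pow_iff _ h0]

theorem mu_pow {σ : Type*} [Finite σ] (v : σ → k) {F : MvPolynomial σ k} (hF : F ≠ 0) (j : ℕ) :
    mu v (F ^ j) = j * mu v F := by
  induction j with
  | zero => simp [mu_unit v isUnit_one]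
  | succ j ih => rw [pow_succ, mu_mul v (pow_ne_zero _ hF) hF, ih]; ring

theorem mu_expand (i : Fin 9) {F : MvPolynomial (Fin 3) k} (hF : F ≠ 0) :
    mu (pt (tt i)) F ≤ mu (pt ((i.val + 1 : ℕ) : k)) (expand 2 F) := by
  rw [← mem_mI_pow_iff _ ((expand_ne_zero (by norm_num)).2 hF)]
  apply pull_mem (fun j => X j ^ 2) _ (pt (tt i))
  · intro j
    fin_cases j <;> simp [pt, tt]
    ring
  · rw [mem_mI_pow_iff _ hF]

/-- An irreducible component of the pull-back of an irreducible curve. -/
theorem exists_component [CharZero k] {G : MvPolynomial (Fin 3) k} {e : ℕ} (hirr : Irreducible G)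
    (hG : G.IsHomogeneous e) : ∃ (H : MvPolynomial (Fin 3) k) (f j : ℕ), Irreducible H ∧
      H.IsHomogeneous f ∧ 1 ≤ j ∧ 2 * f = j * e ∧
      ∀ i, j * mu (pt (tt i)) G ≤ ∑ b : Bool × Bool, mu (qq (i, b)) H := by
  have hG0 := hirr.ne_zero
  have hE0 : expand 2 G ≠ 0 := (expand_ne_zero (by norm_num)).2 hG0
  have hEh := expand_homog hG
  have he : 1 ≤ e := by
    have := deg_pos hirr
    rwa [hG.totalDegree hG0] at this
  have hEu : ¬ IsUnit (expand 2 G) := by
    intro hu
    have := deg_unit hu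
    rw [hEh.totalDegree hE0] at this
    omega
  obtain ⟨H, hH, hHd⟩ := WfDvdMonoid.exists_irreducible_factor hEu hE0
  have hHh := homog_of_dvd hEh hE0 hHd
  have hf := deg_pos hH
  set f := H.totalDegree with hfdef
  have hdvd : ∀ b : Bool × Bool, diag (sv b) H ∣ expand 2 G := by
    intro b
    rw [← diag_expand (sv b) (sv_mul b) G]
    exact map_dvd _ hHd
  have hne : ∀ b : Bool × Bool, diag (sv b) H ≠ 0 := fun b => ne_zero_of_dvd_ne_zero hE0 (hdvd b)
  set N : MvPolynomial (Fin 3) k := diag (sv (false, false)) H * diag (sv (false, true)) H *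
    diag (sv (true, false)) H * diag (sv (true, true)) H with hN
  have hN0 : N ≠ 0 := mul_ne_zero (mul_ne_zero (mul_ne_zero (hne _) (hne _)) (hne _)) (hne _)
  have hNh : N.IsHomogeneous (f + f + f + f) :=
    (((diag_homog _ hHh).mul (diag_homog _ hHh)).mul (diag_homog _ hHh)).mul (diag_homog _ hHh)
  have hsv : ∀ (a : Fin 3 → k) (b c : Bool × Bool), (∀ i, a i * sv b i = sv c i) →
      diag a (diag (sv b) H) = diag (sv c) H := by
    intro a b c h
    rw [diag_diag, funext h]
  have i0 : diag ![-1, 1, 1] N = N := by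
    rw [hN, map_mul, map_mul, map_mul,
      hsv _ _ (true, false) (fun i => by fin_cases i <;> simp [sv, sg]),
      hsv _ _ (true, true) (fun i => by fin_cases i <;> simp [sv, sg]),
      hsv _ _ (false, false) (fun i => by fin_cases i <;> simp [sv, sg]),
      hsv _ _ (false, true) (fun i => by fin_cases i <;> simp [sv, sg])]
    ring
  have i1 : diag ![1, -1, 1] N = N := by
    rw [hN, map_mul, map_mul, map_mul,
      hsv _ _ (false, true) (fun i => by fin_cases i <;> simp [sv, sg]),
      hsv _ _ (false, false) (fun i => by fin_cases i <;> simp [sv, sg]),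
      hsv _ _ (true, true) (fun i => by fin_cases i <;> simp [sv, sg]),
      hsv _ _ (true, false) (fun i => by fin_cases i <;> simp [sv, sg])]
    ring
  have i2 : diag ![1, 1, -1] N = N := by
    have h1 : diag (fun _ => (-1 : k)) N = N := by
      rw [diag_const _ hNh, show f + f + f + f = 2 * (f + f) by ring, pow_mul]
      simp
    have h2 : diag ![1, 1, -1] N = diag ![-1, 1, 1] (diag ![1, -1, 1] (diag (fun _ => -1) N)) := by
      rw [diag_diag, diag_diag]
      congr 2
      funext i
      fin_cases i <;> simp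
    rw [h2, h1, i1, i0]
  obtain ⟨N0, hN0e⟩ := exists_expand i0 i1 i2
  have hN00 : N0 ≠ 0 := by rintro rfl; simp [← hN0e] at hN0
  have hd4 : N0 ∣ G ^ 4 := by
    apply dvd_of_expand hN00
    rw [hN0e, map_pow, hN, show (expand 2 G) ^ 4 = expand 2 G * expand 2 G * expand 2 G *
      expand 2 G by ring]
    exact mul_dvd_mul (mul_dvd_mul (mul_dvd_mul (hdvd _) (hdvd _)) (hdvd _)) (hdvd _)
  obtain ⟨j, -, u, hu⟩ := (dvd_prime_pow hirr.prime 4).1 hd4
  have hdeg : 2 * f = j * e := by
    have h1 := totalDegree_mul_of_isDomain hN00 u.ne_zero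
    rw [hu, deg_unit u.isUnit, (hG.pow j).totalDegree (pow_ne_zero _ hG0)] at h1
    have h2 := totalDegree_expand (p := 2) N0
    rw [hN0e, hNh.totalDegree hN0] at h2
    rw [mul_comm j e]
    omega
  refine ⟨H, f, j, hH, hHh, ?_, hdeg, fun i => ?_⟩
  · rcases Nat.eq_zero_or_pos j with rfl | h
    · omega
    · exact h
  · have h1 := mu_expand i hN00
    rw [mu_assoc _ hN00 ⟨u, hu⟩, mu_pow _ hG0, hN0e, hN,
      mu_mul _ (mul_ne_zero (mul_ne_zero (hne _) (hne _)) (hne _)) (hne _),
      mu_mul _ (mul_ne_zero (hne _) (hne _)) (hne _), mu_mul _ (hne _) (hne _)] at h1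
    have a0 := mu_diag_le (false, false) i hH.ne_zero
    have a1 := mu_diag_le (false, true) i hH.ne_zero
    have a2 := mu_diag_le (true, false) i hH.ne_zero
    have a3 := mu_diag_le (true, true) i hH.ne_zero
    simp only [Fintype.sum_prod_type, Fintype.sum_bool]
    omega

/-- the thirty-six points in the projective plane -/
noncomputable def qP (x : Fin 9 × Bool × Bool) : PP k 2 := Projectivization.mk k (qq x) (qq_ne x)

theorem sg_cancel [CharZero k] {b b' : Bool} {c : k} (hc : c ≠ 0) (h : sg b * c = sg b' * c) :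
    b = b' := by
  have h1 := mul_right_cancel₀ hc h
  cases b <;> cases b' <;> simp [sg] at h1 ⊢ <;> norm_num at h1

theorem qP_inj [CharZero k] : Function.Injective (qP : Fin 9 × Bool × Bool → PP k 2) := by
  rintro ⟨i, b1, b2⟩ ⟨i', b1', b2'⟩ h
  rw [qP, qP, Projectivization.mk_eq_mk_iff] at h
  obtain ⟨a, ha⟩ := h
  have h2 := congrFun ha 2
  rw [Units.smul_def, Pi.smul_apply, qq_two, qq_two, smul_eq_mul, mul_one] at h2
  rw [Units.smul_def, h2, one_smul] at ha
  have h0 := congrFun ha 0
  have h1 := congrFun ha 1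
  simp only [qq, sv, pt, Matrix.cons_val_zero, Matrix.cons_val_one] at h0 h1
  have hi : i' = i := by
    apply tt_inj (k := k)
    unfold tt
    have e1 := sg_mul (k := k) b1
    have e2 := sg_mul (k := k) b1'
    linear_combination (sg b1' * ((i'.val + 1 : ℕ) : k) + sg b1 * ((i.val + 1 : ℕ) : k)) * h0
      - ((i'.val + 1 : ℕ) : k) ^ 2 * e2 + ((i.val + 1 : ℕ) : k) ^ 2 * e1
  subst hi
  have hc : ((i'.val + 1 : ℕ) : k) ≠ 0 := Nat.cast_ne_zero.2 (Nat.succ_ne_zero _)
  rw [sg_cancel hc h0, sg_cancel (pow_ne_zero 3 hc) h1]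

open Classical in
/-- the set of the thirty-six points -/
noncomputable def SS (k : Type*) [Field k] : Finset (PP k 2) := Finset.univ.image qP

/-- Irreducible curves with negative self-intersection and large canonical degree on the plane blown
up at the thirty-six points. -/
theorem main [CharZero k] (n : ℕ) : ∃ (H : MvPolynomial (Fin 3) k) (f : ℕ), Irreducible H ∧
    H.IsHomogeneous f ∧ f ^ 2 < ∑ p ∈ SS k, mu p.rep H ^ 2 ∧
      3 * f + n ≤ ∑ p ∈ SS k, mu p.rep H := by
  classical
  obtain ⟨G, e, hG, hGh, hn, hs, hq⟩ := exists_neg (k := k) (n + 1)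
  obtain ⟨H, f, j, hH, hHh, hj, hf, hm⟩ := exists_component hG hGh
  have hrep : ∀ x, mu (qP x : PP k 2).rep H = mu (qq x) H :=
    fun x => mu_rep _ _ hHh hH.ne_zero
  refine ⟨H, f, hH, hHh, ?_, ?_⟩
  · rw [SS, Finset.sum_image (fun x _ y _ h => qP_inj h), Fintype.sum_prod_type]
    simp only [hrep]
    have h1 : ∀ i, j ^ 2 * mu (pt (tt i)) G ^ 2 ≤ 4 * ∑ b : Bool × Bool, mu (qq (i, b)) H ^ 2 := by
      intro i
      have h2 := hm i
      have h3 := Nat.pow_le_pow_left h2 2
      simp only [Fintype.sum_prod_type, Fintype.sum_bool] at h3 ⊢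
      rw [mul_pow] at h3
      refine h3.trans ?_
      generalize mu (qq (i, true, true)) H = a
      generalize mu (qq (i, true, false)) H = b
      generalize mu (qq (i, false, true)) H = c
      generalize mu (qq (i, false, false)) H = d
      zify
      nlinarith [sq_nonneg ((a : ℤ) - b), sq_nonneg ((a : ℤ) - c), sq_nonneg ((a : ℤ) - d),
        sq_nonneg ((b : ℤ) - c), sq_nonneg ((b : ℤ) - d), sq_nonneg ((c : ℤ) - d)]
    have h4 := Finset.sum_le_sum (s := Finset.univ) fun i _ => h1 i
    rw [← Finset.mul_sum, ← Finset.mul_sum] at h4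
    have h5 : j ^ 2 * e ^ 2 < j ^ 2 * ∑ i, mu (pt (tt i)) G ^ 2 :=
      Nat.mul_lt_mul_of_pos_left hq (by positivity)
    have h6 : j ^ 2 * e ^ 2 = 4 * f ^ 2 := by rw [← mul_pow, ← hf]; ring
    omega
  · rw [SS, Finset.sum_image (fun x _ y _ h => qP_inj h), Fintype.sum_prod_type]
    simp only [hrep]
    have h4 := Finset.sum_le_sum (s := Finset.univ) fun i _ => hm i
    rw [← Finset.mul_sum] at h4
    generalize ∑ i, ∑ b : Bool × Bool, mu (qq (i, b)) H = w at h4 ⊢
    generalize ∑ i, mu (pt (tt i)) G = z at h4 hs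
    obtain ⟨j, rfl⟩ : ∃ j', j = j' + 1 := ⟨j - 1, by omega⟩
    nlinarith

theorem card_SS [CharZero k] : (SS k).card = 36 := by
  classical
  rw [SS, Finset.card_image_of_injective _ qP_inj]
  simp

end Pool.Agent.H358Z.Neg
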