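import Mathlib
import Pool.Agent.H358Z.NegC

/-!
Bridges to the statements: multiplicity as a supremum, and rigidity of negative curves.
-/

set_option autoImplicit false

namespace Pool.Agent.H358Z.Neg

open MvPolynomial Pool.Agent.Chud

variable {k : Type*} [Field k]

theorem sSup_eq_mu (v : Fin 3 → k) {F : MvPolynomial (Fin 3) k} (hF : F ≠ 0) :
    sSup {m : ℕ | F ∈ (RingHom.ker (eval v)) ^ m} = mu v F := by
  have h : {m : ℕ | F ∈ (RingHom.ker (eval v)) ^ m} = Set.Iic (mu v F) := by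
    ext m
    exact mem_mI_pow_iff v hF m
  rw [h, csSup_Iic]

/-- An irreducible curve of negative self-intersection does not move. -/
theorem rigid (S : Finset (PP k 2)) {F G : MvPolynomial (Fin 3) k} {d : ℕ} (hirr : Irreducible F)
    (hF : F.IsHomogeneous d) (hneg : d ^ 2 < ∑ p ∈ S, mu p.rep F ^ 2) (hG : G.IsHomogeneous d)
    (hm : ∀ p ∈ S, G ∈ mI p.rep ^ mu p.rep F) : ∃ c : k, c • F = G := by
  by_cases hG0 : G = 0
  · exact ⟨0, by rw [hG0, zero_smul]⟩
  have hdvd : F ∣ G := by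
    by_contra hnd
    have hb := bezout hF hG hirr.ne_zero hG0 (hirr.isRelPrime_iff_not_dvd.2 hnd) S
      (fun p => mu p.rep F) (fun p => mu p.rep F)
      (fun p _ => (mem_mI_pow_iff _ hirr.ne_zero _).2 le_rfl) hm
    simp only [pow_two] at hneg
    omega
  obtain ⟨Q, rfl⟩ := hdvd
  have hQ : Q ≠ 0 := right_ne_zero_of_mul hG0
  have h1 := totalDegree_mul_of_isDomain hirr.ne_zero hQ
  rw [hG.totalDegree hG0, hF.totalDegree hirr.ne_zero] at h1
  have h2 : Q.totalDegree = 0 := by omega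
  rw [totalDegree_eq_zero_iff_eq_C] at h2
  exact ⟨coeff 0 Q, by rw [smul_eq_C_mul, ← h2, mul_comm]⟩

/-- The main family, for every set of points that contains the thirty-six points. -/
theorem main_superset [CharZero k] (T : Finset (PP k 2)) (hT : SS k ⊆ T) (n : ℕ) :
    ∃ (H : MvPolynomial (Fin 3) k) (f : ℕ), Irreducible H ∧ H.IsHomogeneous f ∧
      f ^ 2 < ∑ p ∈ T, mu p.rep H ^ 2 ∧ 3 * f + n ≤ ∑ p ∈ T, mu p.rep H := by
  obtain ⟨H, f, h1, h2, h3, h4⟩ := main (k := k) n
  exact ⟨H, f, h1, h2, h3.trans_le (Finset.sum_le_sum_of_subset hT),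
    h4.trans (Finset.sum_le_sum_of_subset hT)⟩

end Pool.Agent.H358Z.Neg
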